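import Mathlib

/-! First-order formulas of set theory and models of `ZF`. -/

namespace Pool.Agent.Lib.MP_f5c99b_lc

universe u

/-- First-order formulas of the language of set theory (de Bruijn indices). -/
inductive Fml : Type
  | mem (i j : ℕ) : Fml
  | eq (i j : ℕ) : Fml
  | neg (φ : Fml) : Fml
  | conj (φ ψ : Fml) : Fml
  | all (φ : Fml) : Fml

/-- The valuation `x, v 0, v 1, …`. -/
def push {M : Type u} (x : M) (v : ℕ → M) : ℕ → M
  | 0 => x
  | n + 1 => v n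

/-- Truth of a formula in the structure `(M, ∈)` under the valuation `v`. -/
def Sat {M : Type u} [Membership M M] : Fml → (ℕ → M) → Prop
  | .mem i j, v => v i ∈ v j
  | .eq i j, v => v i = v j
  | .neg φ, v => ¬ Sat φ v
  | .conj φ ψ, v => Sat φ v ∧ Sat ψ v
  | .all φ, v => ∀ x : M, Sat φ (push x v)

/-- `(M, ∈)` is a model of the first-order theory `ZF`. -/
structure IsModelOfZF (M : Type u) [Membership M M] : Prop where
  ext : ∀ a b : M, (∀ x : M, x ∈ a ↔ x ∈ b) → a = b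
  foundation : ∀ a : M, (∃ x : M, x ∈ a) → ∃ x : M, x ∈ a ∧ ∀ y : M, y ∈ x → y ∉ a
  pairing : ∀ a b : M, ∃ c : M, ∀ x : M, x ∈ c ↔ x = a ∨ x = b
  union : ∀ a : M, ∃ b : M, ∀ x : M, x ∈ b ↔ ∃ y : M, y ∈ a ∧ x ∈ y
  powerset : ∀ a : M, ∃ b : M, ∀ x : M, x ∈ b ↔ ∀ y : M, y ∈ x → y ∈ a
  infinity : ∃ a : M, (∃ e : M, e ∈ a ∧ ∀ x : M, x ∉ e) ∧
    ∀ x : M, x ∈ a → ∃ y : M, y ∈ a ∧ ∀ z : M, z ∈ y ↔ z ∈ x ∨ z = x
  separation : ∀ (φ : Fml) (v : ℕ → M) (a : M), ∃ b : M, ∀ x : M,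
    x ∈ b ↔ x ∈ a ∧ Sat φ (push x v)
  replacement : ∀ (φ : Fml) (v : ℕ → M) (a : M),
    (∀ x : M, x ∈ a → ∃! y : M, Sat φ (push x (push y v))) →
      ∃ b : M, ∀ x : M, x ∈ a → ∃ y : M, y ∈ b ∧ Sat φ (push x (push y v))

end Pool.Agent.Lib.MP_f5c99b_lc

/-! Functions, topological spaces, products and the real line inside a structure `(M, ∈)`.
All quantifiers over sets range over `M`. -/

namespace Pool.Agent.Lib.MP_f5c99b_lc

universe u

variable {M : Type u} [Membership M M]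

/-- `p` is the ordered pair `(x, y) = {{x}, {x, y}}`. -/
def IsPair (p x y : M) : Prop :=
  ∀ z : M, z ∈ p ↔ (∀ w : M, w ∈ z ↔ w = x) ∨ (∀ w : M, w ∈ z ↔ w = x ∨ w = y)

/-- `(x, y) ∈ f`; for a function `f` this says `f(x) = y`. -/
def App (f x y : M) : Prop := ∃ p : M, IsPair p x y ∧ p ∈ f

/-- `((x, y), z) ∈ f` -/
def App2 (f x y z : M) : Prop := ∃ p : M, IsPair p x y ∧ App f p z

/-- `f` is a function from `a` to `b`. -/
def IsFun (f a b : M) : Prop :=
  (∀ p : M, p ∈ f → ∃ x y : M, x ∈ a ∧ y ∈ b ∧ IsPair p x y) ∧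
    ∀ x : M, x ∈ a → ∃! y : M, App f x y

/-- `T` is a topology on the set `X`. -/
def IsTopology (X T : M) : Prop :=
  (∀ U : M, U ∈ T → ∀ x : M, x ∈ U → x ∈ X) ∧ X ∈ T ∧
    (∀ U V W : M, U ∈ T → V ∈ T → (∀ x : M, x ∈ W ↔ x ∈ U ∧ x ∈ V) → W ∈ T) ∧
    ∀ S W : M, (∀ U : M, U ∈ S → U ∈ T) → (∀ x : M, x ∈ W ↔ ∃ U : M, U ∈ S ∧ x ∈ U) → W ∈ T

/-- `T` is the smallest topology on `X` (in `M`) that contains all members of the class `G`. -/
def IsGenerated (X : M) (G : M → Prop) (T : M) : Prop :=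
  IsTopology X T ∧ (∀ U : M, G U → U ∈ T) ∧
    ∀ T' : M, IsTopology X T' → (∀ U : M, G U → U ∈ T') → ∀ U : M, U ∈ T → U ∈ T'

/-- `P` is the set of all functions from `J` to `Y` and `Q` is the product topology on `P = Y ^ J`,
where `Y` carries the topology `S`. -/
def IsPower (J Y S P Q : M) : Prop :=
  (∀ g : M, g ∈ P ↔ IsFun g J Y) ∧
    IsGenerated P (fun U => ∃ j V : M, j ∈ J ∧ V ∈ S ∧
      ∀ g : M, g ∈ U ↔ g ∈ P ∧ ∃ y : M, y ∈ V ∧ App g j y) Q

/-- `f` is a continuous function from the space `(X, T)` to the space `(Y, S)`. -/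
def IsContinuous (f X T Y S : M) : Prop :=
  IsFun f X Y ∧ ∀ V U : M, V ∈ S → (∀ x : M, x ∈ U ↔ x ∈ X ∧ ∃ y : M, y ∈ V ∧ App f x y) → U ∈ T

/-- `i` is a homeomorphism from the space `(X, T)` onto a closed subspace of `(P, Q)`:
an injective function, the open sets of `X` are the preimages of the open sets of `P`, and the
complement of the range of `i` is open. -/
def IsClosedEmbedding (i X T P Q : M) : Prop :=
  IsFun i X P ∧ (∀ x y z : M, App i x z → App i y z → x = y) ∧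
    (∀ U : M, U ∈ T ↔ ∃ W : M, W ∈ Q ∧ ∀ x : M, x ∈ U ↔ x ∈ X ∧ ∃ z : M, z ∈ W ∧ App i x z) ∧
    ∃ O : M, O ∈ Q ∧ ∀ z : M, z ∈ O ↔ z ∈ P ∧ ∀ x : M, ¬ App i x z

/-- The elements of a set, as a type. -/
abbrev El (R : M) : Type u := {x : M // x ∈ R}

variable (M) in
/-- A complete ordered field in `M`, i.e. the real line of `M`: sets `R` (elements), `A` (graph of
the addition), `B` (graph of the multiplication) and `L` (the order relation) of `M` that satisfy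
the axioms of ordered fields, such that every nonempty subset of `R` in `M` with an upper bound
has a least upper bound. -/
structure RealField where
  R : M
  A : M
  B : M
  L : M
  field : Field (El R)
  order : LinearOrder (El R)
  ordered : IsStrictOrderedRing (El R)
  add_iff : ∀ x y z : El R, App2 A x.1 y.1 z.1 ↔ x + y = z
  mul_iff : ∀ x y z : El R, App2 B x.1 y.1 z.1 ↔ x * y = z
  lt_iff : ∀ x y : El R, App L x.1 y.1 ↔ x < y
  complete : ∀ S : M, (∀ x : M, x ∈ S → x ∈ R) → (∃ x : M, x ∈ S) →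
    (∃ b : El R, ∀ x : El R, x.1 ∈ S → x ≤ b) → ∃ s : El R, IsLUB {x : El R | x.1 ∈ S} s

instance (K : RealField M) : Field (El K.R) := K.field
instance (K : RealField M) : LinearOrder (El K.R) := K.order
instance (K : RealField M) : IsStrictOrderedRing (El K.R) := K.ordered

/-- `S` is the usual topology of the real line: it is generated by the open rays. -/
def IsUsual (K : RealField M) (S : M) : Prop :=
  IsGenerated K.R (fun U => ∃ a : El K.R, (∀ x : M, x ∈ U ↔ ∃ y : El K.R, y.1 = x ∧ y < a) ∨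
    (∀ x : M, x ∈ U ↔ ∃ y : El K.R, y.1 = x ∧ a < y)) S

/-- `w` is the set of natural numbers of `M`, the least inductive set. -/
def IsOmega (w : M) : Prop :=
  ((∃ e : M, e ∈ w ∧ ∀ x : M, x ∉ e) ∧
    ∀ x : M, x ∈ w → ∃ y : M, y ∈ w ∧ ∀ z : M, z ∈ y ↔ z ∈ x ∨ z = x) ∧
  ∀ a : M, (∃ e : M, e ∈ a ∧ ∀ x : M, x ∉ e) →
    (∀ x : M, x ∈ a → ∃ y : M, y ∈ a ∧ ∀ z : M, z ∈ y ↔ z ∈ x ∨ z = x) →
      ∀ n : M, n ∈ w → n ∈ a

/-- `S` is the discrete topology on `Y`. -/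
def IsDiscrete (Y S : M) : Prop := ∀ U : M, U ∈ S ↔ ∀ x : M, x ∈ U → x ∈ Y

/-- In `M`, the space `(X, T)` is realcompact: homeomorphic to a closed subspace of `ℝ ^ J`
for some set `J`. -/
def IsRealcompact (K : RealField M) (X T : M) : Prop :=
  ∃ S J P Q i : M, IsUsual K S ∧ IsPower J K.R S P Q ∧ IsClosedEmbedding i X T P Q

/-- In `M`, the space `(X, T)` is `ℕ`-compact: homeomorphic to a closed subspace of `ℕ ^ J`
for some set `J`. -/
def IsNCompact (X T : M) : Prop :=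
  ∃ w S J P Q i : M, IsOmega w ∧ IsDiscrete w S ∧ IsPower J w S P Q ∧
    IsClosedEmbedding i X T P Q

/-- In `M`, completely separated subsets `A`, `B` of the space `(X, T)` are separated by a clopen
set. -/
def IsStronglyZeroDim (K : RealField M) (X T : M) : Prop :=
  ∀ S f A B : M, IsUsual K S → IsContinuous f X T K.R S →
    (∀ (x : M) (y : El K.R), App f x y.1 → 0 ≤ y ∧ y ≤ 1) →
    (∀ x : M, x ∈ A → x ∈ X ∧ App f x (0 : El K.R).1) →
    (∀ x : M, x ∈ B → x ∈ X ∧ App f x (1 : El K.R).1) →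
    ∃ C C' : M, C ∈ T ∧ C' ∈ T ∧ (∀ x : M, x ∈ C' ↔ x ∈ X ∧ x ∉ C) ∧
      (∀ x : M, x ∈ A → x ∈ C) ∧ ∀ x : M, x ∈ B → x ∉ C

end Pool.Agent.Lib.MP_f5c99b_lc
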