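import Mathlib
import Pool.Agent.Lib.MP_f5c99b_lc.Defs

/-! Definability with parameters in a structure `(M, ∈)`. -/

namespace Pool.Agent.Lib.MP_f5c99b_lc

universe u

/-! ### renaming of variables -/

/-- lifting a renaming under a binder -/
def up (ρ : ℕ → ℕ) : ℕ → ℕ
  | 0 => 0
  | n + 1 => ρ n + 1

def ren : (ℕ → ℕ) → Fml → Fml
  | ρ, .mem i j => .mem (ρ i) (ρ j)
  | ρ, .eq i j => .eq (ρ i) (ρ j)
  | ρ, .neg φ => .neg (ren ρ φ)
  | ρ, .conj φ ψ => .conj (ren ρ φ) (ren ρ ψ)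
  | ρ, .all φ => .all (ren (up ρ) φ)

theorem push_up {M : Type u} (x : M) (v : ℕ → M) (ρ : ℕ → ℕ) : (fun i => push x v (up ρ i)) =
    push x (fun i => v (ρ i)) := by
  funext i
  cases i <;> rfl

variable {M : Type u} [Membership M M]

theorem sat_ren (φ : Fml) : ∀ (ρ : ℕ → ℕ) (v : ℕ → M), Sat (ren ρ φ) v ↔ Sat φ (fun i => v (ρ i)) := by
  induction φ with
  | mem i j => intro ρ v; rfl
  | eq i j => intro ρ v; rfl
  | neg φ ih => intro ρ v; exact not_congr (ih ρ v)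
  | conj φ ψ ih ih' => intro ρ v; exact and_congr (ih ρ v) (ih' ρ v)
  | all φ ih =>
    intro ρ v
    refine forall_congr' fun x => ?_
    have h := ih (up ρ) (push x v)
    rwa [push_up] at h

/-! ### definability with parameters -/

/-- value of a variable or a parameter -/
def vp (v : ℕ → M) (k : ℕ ⊕ M) : M := Sum.elim v id k

/-- `P` is first-order definable with parameters -/
class D (P : (ℕ → M) → Prop) : Prop where
  out : ∃ (φ : Fml) (k : ℕ → ℕ ⊕ M), ∀ v, P v ↔ Sat φ (fun i => vp v (k i))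

/-- `t` is a definable term -/
class DT (t : (ℕ → M) → M) : Prop where
  out : D (fun v => v 0 = t (fun i => v (i + 1)))

theorem D.congr {P Q : (ℕ → M) → Prop} (h : D P) (e : ∀ v, Q v ↔ P v) : D Q := by
  obtain ⟨φ, k, h⟩ := h.out
  exact ⟨φ, k, fun v => (e v).trans (h v)⟩

/-- substitution of variables and parameters for variables -/
theorem D.sub {P : (ℕ → M) → Prop} (h : D P) (s : ℕ → ℕ ⊕ M) : D (fun v => P (fun i => vp v (s i))) := by
  obtain ⟨φ, k, h⟩ := h.out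
  refine ⟨φ, fun i => Sum.elim s Sum.inr (k i), fun v => (h _).trans ?_⟩
  have : (fun i => vp (fun i => vp v (s i)) (k i)) = fun i => vp v (Sum.elim s Sum.inr (k i)) := by
    funext i
    rcases k i with j | c <;> rfl
  rw [this]

instance D_mem_var (i j : ℕ) : D (fun v : ℕ → M => v i ∈ v j) :=
  ⟨.mem i j, Sum.inl, fun _ => Iff.rfl⟩

instance D_eq_var (i j : ℕ) : D (fun v : ℕ → M => v i = v j) :=
  ⟨.eq i j, Sum.inl, fun _ => Iff.rfl⟩

instance D_not {P : (ℕ → M) → Prop} [h : D P] : D (fun v => ¬ P v) := by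
  obtain ⟨φ, k, h⟩ := h.out
  exact ⟨.neg φ, k, fun v => not_congr (h v)⟩

instance D_and {P Q : (ℕ → M) → Prop} [h : D P] [h' : D Q] : D (fun v => P v ∧ Q v) := by
  obtain ⟨φ, k, h⟩ := h.out
  obtain ⟨ψ, l, h'⟩ := h'.out
  refine ⟨.conj (ren (fun i => 2 * i) φ) (ren (fun i => 2 * i + 1) ψ),
    fun i => if i % 2 = 0 then k (i / 2) else l (i / 2), fun v => and_congr ?_ ?_⟩
  · rw [h, sat_ren]
    have : ∀ i, (2 * i) % 2 = 0 := by intro i; omega
    have h2 : ∀ i, (2 * i) / 2 = i := by intro i; omega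
    simp only [this, h2, if_true]
  · rw [h', sat_ren]
    have : ∀ i, (2 * i + 1) % 2 = 1 := by intro i; omega
    have h2 : ∀ i, (2 * i + 1) / 2 = i := by intro i; omega
    simp only [this, h2, one_ne_zero, if_false]

instance D_all {P : (ℕ → M) → M → Prop} [h : D (fun v => P (fun i => v (i + 1)) (v 0))] :
    D (fun v => ∀ x, P v x) := by
  obtain ⟨φ, k, h⟩ := h.out
  refine ⟨.all (ren (fun i => Sum.elim (fun j => if j = 0 then 0 else i + 1) (fun _ => i + 1) (k i)) φ),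
    fun i => Sum.elim (fun j => Sum.inl (j - 1)) Sum.inr (k i), fun v => ?_⟩
  refine forall_congr' fun x => ?_
  have h1 : P v x ↔ _ := h (push x v)
  rw [h1, sat_ren]
  have : (fun i => vp (push x v) (k i)) = fun i => push x (fun i => vp v (Sum.elim (fun j => Sum.inl (j - 1)) Sum.inr (k i)))
      (Sum.elim (fun j => if j = 0 then 0 else i + 1) (fun _ => i + 1) (k i)) := by
    funext i
    rcases hk : k i with j | c
    · rcases j with _ | j
      · rfl
      · simp [vp, push, hk]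
    · simp [vp, push, hk]
  rw [this]

instance D_const (p : Prop) : D (fun _ : ℕ → M => p) := by
  by_cases hp : p
  · exact ⟨.eq 0 0, Sum.inl, fun v => iff_of_true hp rfl⟩
  · exact ⟨.neg (.eq 0 0), Sum.inl, fun v => iff_of_false hp (fun h => h rfl)⟩

instance D_or {P Q : (ℕ → M) → Prop} [h : D P] [h' : D Q] : D (fun v => P v ∨ Q v) :=
  (inferInstance : D (fun v => ¬ (¬ P v ∧ ¬ Q v))).congr fun v => by tauto

instance D_imp {P Q : (ℕ → M) → Prop} [h : D P] [h' : D Q] : D (fun v => P v → Q v) :=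
  (inferInstance : D (fun v => ¬ (P v ∧ ¬ Q v))).congr fun v => by tauto

instance D_iff {P Q : (ℕ → M) → Prop} [h : D P] [h' : D Q] : D (fun v => P v ↔ Q v) :=
  (inferInstance : D (fun v => (P v → Q v) ∧ (Q v → P v))).congr fun v => by tauto

instance D_ex {P : (ℕ → M) → M → Prop} [h : D (fun v => P (fun i => v (i + 1)) (v 0))] :
    D (fun v => ∃ x, P v x) := by
  have : D (fun v : ℕ → M => ∀ x, ¬ P v x) := inferInstance
  exact (inferInstance : D (fun v => ¬ ∀ x, ¬ P v x)).congr fun v => by simp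

theorem DT.var2 {s : (ℕ → M) → M} (h : DT s) (a k : ℕ) :
    D (fun v => v a = s (fun i => v (i + k))) := by
  have := h.out.sub (fun n => Nat.casesOn n (Sum.inl a) (fun i => Sum.inl (i + k)))
  exact this

instance DT_var (i : ℕ) : DT (fun v : ℕ → M => v i) := ⟨D_eq_var 0 (i + 1)⟩

instance DT_const (c : M) : DT (fun _ : ℕ → M => c) :=
  ⟨(D_eq_var 0 1).sub (fun n => if n = 0 then Sum.inl 0 else Sum.inr c)⟩

theorem DT.shift {t : (ℕ → M) → M} (h : DT t) (k : ℕ) : DT (fun v => t (fun i => v (i + k))) := by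
  have := h.out.sub (fun n => Nat.casesOn n (Sum.inl 0) (fun i => Sum.inl (i + (k + 1))))
  exact ⟨this⟩

theorem D.subst {Q : (ℕ → M) → M → Prop} (h : D (fun v => Q (fun i => v (i + 1)) (v 0)))
    {t : (ℕ → M) → M} (ht : DT t) : D (fun v => Q v (t v)) := by
  have h1 := ht.var2 0 1
  have : D (fun v : ℕ → M => ∃ x, x = t v ∧ Q v x) := inferInstance
  exact this.congr fun v => by simp

theorem D.perm {P : (ℕ → M) → Prop} (h : D P) (ρ : ℕ → ℕ) : D (fun v => P (fun i => v (ρ i))) :=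
  h.sub (fun i => Sum.inl (ρ i))

theorem D1 {P : M → Prop} (h : D (fun v => P (v 0))) (t1 : (ℕ → M) → M) [h1 : DT t1] :
    D (fun v => P (t1 v)) :=
  D.subst (Q := fun _ x => P x) h h1

theorem D2 {P : M → M → Prop} (h : D (fun v => P (v 0) (v 1))) (t1 t2 : (ℕ → M) → M)
    [h1 : DT t1] [h2 : DT t2] : D (fun v => P (t1 v) (t2 v)) := by
  have k0 : D (fun v => P (v 1) (v 0)) := h.perm (fun i => 1 - i)
  have k1 : D (fun v => P (v 0) (t2 (fun i => v (i + 1)))) :=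
    D.subst (Q := fun v x => P (v 0) x) k0 (h2.shift 1)
  exact D.subst (Q := fun v x => P x (t2 v)) k1 h1

theorem D3 {P : M → M → M → Prop} (h : D (fun v => P (v 0) (v 1) (v 2)))
    (t1 t2 t3 : (ℕ → M) → M) [h1 : DT t1] [h2 : DT t2] [h3 : DT t3] :
    D (fun v => P (t1 v) (t2 v) (t3 v)) := by
  have k0 : D (fun v => P (v 2) (v 1) (v 0)) := h.perm (fun i => 2 - i)
  have k1 : D (fun v => P (v 1) (v 0) (t3 (fun i => v (i + 2)))) :=
    D.subst (Q := fun v x => P (v 1) (v 0) x) k0 (h3.shift 2)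
  have k2 : D (fun v => P (v 0) (t2 (fun i => v (i + 1))) (t3 (fun i => v (i + 1)))) :=
    D.subst (Q := fun v x => P (v 0) x (t3 (fun i => v (i + 1)))) k1 (h2.shift 1)
  exact D.subst (Q := fun v x => P x (t2 v) (t3 v)) k2 h1

theorem D4 {P : M → M → M → M → Prop} (h : D (fun v => P (v 0) (v 1) (v 2) (v 3)))
    (t1 t2 t3 t4 : (ℕ → M) → M) [h1 : DT t1] [h2 : DT t2] [h3 : DT t3] [h4 : DT t4] :
    D (fun v => P (t1 v) (t2 v) (t3 v) (t4 v)) := by
  have k0 : D (fun v => P (v 3) (v 2) (v 1) (v 0)) := h.perm (fun i => 3 - i)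
  have k1 : D (fun v => P (v 2) (v 1) (v 0) (t4 (fun i => v (i + 3)))) :=
    D.subst (Q := fun v x => P (v 2) (v 1) (v 0) x) k0 (h4.shift 3)
  have k2 : D (fun v => P (v 1) (v 0) (t3 (fun i => v (i + 2))) (t4 (fun i => v (i + 2)))) :=
    D.subst (Q := fun v x => P (v 1) (v 0) x (t4 (fun i => v (i + 2)))) k1 (h3.shift 2)
  have k3 : D (fun v => P (v 0) (t2 (fun i => v (i + 1))) (t3 (fun i => v (i + 1)))
      (t4 (fun i => v (i + 1)))) :=
    D.subst (Q := fun v x => P (v 0) x (t3 (fun i => v (i + 1))) (t4 (fun i => v (i + 1)))) k2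
      (h2.shift 1)
  exact D.subst (Q := fun v x => P x (t2 v) (t3 v) (t4 v)) k3 h1

theorem D5 {P : M → M → M → M → M → Prop} (h : D (fun v => P (v 0) (v 1) (v 2) (v 3) (v 4)))
    (t1 t2 t3 t4 t5 : (ℕ → M) → M) [h1 : DT t1] [h2 : DT t2] [h3 : DT t3] [h4 : DT t4]
    [h5 : DT t5] : D (fun v => P (t1 v) (t2 v) (t3 v) (t4 v) (t5 v)) := by
  have k0 : D (fun v => P (v 4) (v 3) (v 2) (v 1) (v 0)) := h.perm (fun i => 4 - i)
  have k1 : D (fun v => P (v 3) (v 2) (v 1) (v 0) (t5 (fun i => v (i + 4)))) :=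
    D.subst (Q := fun v x => P (v 3) (v 2) (v 1) (v 0) x) k0 (h5.shift 4)
  have k2 : D (fun v => P (v 2) (v 1) (v 0) (t4 (fun i => v (i + 3))) (t5 (fun i => v (i + 3)))) :=
    D.subst (Q := fun v x => P (v 2) (v 1) (v 0) x (t5 (fun i => v (i + 3)))) k1 (h4.shift 3)
  have k3 : D (fun v => P (v 1) (v 0) (t3 (fun i => v (i + 2))) (t4 (fun i => v (i + 2)))
      (t5 (fun i => v (i + 2)))) :=
    D.subst (Q := fun v x => P (v 1) (v 0) x (t4 (fun i => v (i + 2))) (t5 (fun i => v (i + 2)))) k2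
      (h3.shift 2)
  have k4 : D (fun v => P (v 0) (t2 (fun i => v (i + 1))) (t3 (fun i => v (i + 1)))
      (t4 (fun i => v (i + 1))) (t5 (fun i => v (i + 1)))) :=
    D.subst (Q := fun v x => P (v 0) x (t3 (fun i => v (i + 1))) (t4 (fun i => v (i + 1)))
      (t5 (fun i => v (i + 1)))) k3 (h2.shift 1)
  exact D.subst (Q := fun v x => P x (t2 v) (t3 v) (t4 v) (t5 v)) k4 h1

instance D_mem (s t : (ℕ → M) → M) [DT s] [DT t] : D (fun v => s v ∈ t v) :=
  D2 (P := fun x y => x ∈ y) inferInstance s t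

instance D_eq (s t : (ℕ → M) → M) [DT s] [DT t] : D (fun v => s v = t v) :=
  D2 (P := fun x y => x = y) inferInstance s t

instance D_exu {P : (ℕ → M) → M → Prop} [h : D (fun v => P (fun i => v (i + 1)) (v 0))] :
    D (fun v => ∃! x, P v x) := by
  have h1 : D (fun v => P (fun i => v (i + 2)) (v 0)) :=
    h.perm (fun i => if i = 0 then 0 else i + 1)
  have : D (fun v : ℕ → M => ∃ x, P v x ∧ ∀ y, P v y → y = x) := inferInstance
  exact this

/-- definable functions -/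
theorem DT_of {t : (ℕ → M) → M} {P : (ℕ → M) → M → Prop}
    (h : D (fun v => P (fun i => v (i + 1)) (v 0))) (e : ∀ v x, x = t v ↔ P v x) : DT t :=
  ⟨h.congr fun v => e _ _⟩

theorem DT1 {f : M → M} (h : DT (fun v => f (v 0))) (t1 : (ℕ → M) → M) [h1 : DT t1] :
    DT (fun v => f (t1 v)) := by
  have k0 : D (fun v : ℕ → M => v 1 = f (v 0)) := h.out.perm (fun i => 1 - i)
  exact ⟨(D2 (P := fun x y => x = f y) (k0.perm (fun i => 1 - i)) (fun v => v 0)
    (fun v => t1 (fun i => v (i + 1))) (h2 := h1.shift 1))⟩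

theorem DT2 {f : M → M → M} (h : DT (fun v => f (v 0) (v 1))) (t1 t2 : (ℕ → M) → M) [h1 : DT t1]
    [h2 : DT t2] : DT (fun v => f (t1 v) (t2 v)) := by
  have k0 : D (fun v : ℕ → M => v 0 = f (v 1) (v 2)) := h.out
  exact ⟨(D3 (P := fun x y z => x = f y z) k0 (fun v => v 0)
    (fun v => t1 (fun i => v (i + 1))) (fun v => t2 (fun i => v (i + 1))) (h2 := h1.shift 1)
    (h3 := h2.shift 1))⟩

theorem DT3 {f : M → M → M → M} (h : DT (fun v => f (v 0) (v 1) (v 2))) (t1 t2 t3 : (ℕ → M) → M)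
    [h1 : DT t1] [h2 : DT t2] [h3 : DT t3] : DT (fun v => f (t1 v) (t2 v) (t3 v)) := by
  have k0 : D (fun v : ℕ → M => v 0 = f (v 1) (v 2) (v 3)) := h.out
  exact ⟨(D4 (P := fun x y z w => x = f y z w) k0 (fun v => v 0)
    (fun v => t1 (fun i => v (i + 1))) (fun v => t2 (fun i => v (i + 1)))
    (fun v => t3 (fun i => v (i + 1))) (h2 := h1.shift 1) (h3 := h2.shift 1)
    (h4 := h3.shift 1))⟩

end Pool.Agent.Lib.MP_f5c99b_lc

/-! Elementary constructions in a model of `ZF`. -/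

namespace Pool.Agent.Lib.MP_f5c99b_lc

universe u

variable {M : Type u} [Membership M M]

theorem DT.perm {t : (ℕ → M) → M} (h : DT t) (ρ : ℕ → ℕ) : DT (fun v => t (fun i => v (ρ i))) := by
  have := h.out.sub (fun n => Nat.casesOn n (Sum.inl 0) (fun i => Sum.inl (ρ i + 1)))
  exact ⟨this⟩

theorem D.fix {P : (ℕ → M) → M → Prop} (h : D (fun v => P (fun i => v (i + 1)) (v 0)))
    (v : ℕ → M) : D (fun w : ℕ → M => P v (w 0)) := by
  have := h.sub (fun n => Nat.casesOn n (Sum.inl 0) (fun i => Sum.inr (v i)))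
  exact this

theorem nonempty_of_zf [h : Fact (IsModelOfZF M)] : Nonempty M := by
  obtain ⟨a, _⟩ := h.out.infinity
  exact ⟨a⟩

/-- the set of all `x` with `P x`, if it exists -/
noncomputable def coll [Fact (IsModelOfZF M)] (P : M → Prop) : M :=
  open Classical in
  if h : ∃ b : M, ∀ x, x ∈ b ↔ P x then h.choose else (nonempty_of_zf (M := M)).some

/-- the unique `x` with `P x`, if it exists -/
noncomputable def iota [Fact (IsModelOfZF M)] (P : M → Prop) : M :=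
  open Classical in
  if h : ∃! x : M, P x then h.choose else (nonempty_of_zf (M := M)).some

section

variable [hZF : Fact (IsModelOfZF M)]

theorem ext {a b : M} (h : ∀ x, x ∈ a ↔ x ∈ b) : a = b := hZF.out.ext a b h

theorem mem_coll {P : M → Prop} (h : ∃ b : M, ∀ x, x ∈ b ↔ P x) (x : M) : x ∈ coll P ↔ P x := by
  rw [coll, dif_pos h]
  exact h.choose_spec x

theorem iota_spec {P : M → Prop} (h : ∃! x : M, P x) : P (iota P) := by
  rw [iota, dif_pos h]
  exact h.choose_spec.1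

theorem iota_eq {P : M → Prop} {x : M} (h : P x) (h' : ∀ y, P y → y = x) : iota P = x :=
  h' _ (iota_spec ⟨x, h, h'⟩)

instance DT_coll {P : (ℕ → M) → M → Prop} [h : D (fun v => P (fun i => v (i + 1)) (v 0))] :
    DT (fun v => coll (P v)) := by
  have h1 : D (fun v => P (fun i => v (i + 2)) (v 0)) :=
    h.perm (fun i => if i = 0 then 0 else i + 1)
  have h2 : D (fun v : ℕ → M => (∀ x : M, x ∈ v 0 ↔ P (fun i => v (i + 1)) x) ∨
      ((¬ ∃ b : M, ∀ x : M, x ∈ b ↔ P (fun i => v (i + 1)) x) ∧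
      v 0 = (nonempty_of_zf (M := M)).some)) := by
    have h3 : D (fun v => P (fun i => v (i + 3)) (v 0)) :=
      h.perm (fun i => if i = 0 then 0 else i + 2)
    infer_instance
  refine ⟨h2.congr fun v => ?_⟩
  by_cases he : ∃ b : M, ∀ x : M, x ∈ b ↔ P (fun i => v (i + 1)) x
  · constructor
    · intro h
      left
      rw [h]
      exact mem_coll he
    · rintro (h | h)
      · exact ext fun x => (h x).trans (mem_coll he x).symm
      · exact absurd he h.1
  · rw [coll, dif_neg he]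
    constructor
    · intro h
      exact Or.inr ⟨he, h⟩
    · rintro (h | h)
      · exact absurd ⟨_, h⟩ he
      · exact h.2

instance DT_iota {P : (ℕ → M) → M → Prop} [h : D (fun v => P (fun i => v (i + 1)) (v 0))] :
    DT (fun v => iota (P v)) := by
  have h1 : D (fun v => P (fun i => v (i + 1)) (v 0)) := h
  have h2 : D (fun v : ℕ → M => (P (fun i => v (i + 1)) (v 0) ∧ ∃! x, P (fun i => v (i + 1)) x) ∨
      ((¬ ∃! x, P (fun i => v (i + 1)) x) ∧
      v 0 = (nonempty_of_zf (M := M)).some)) := by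
    have h3 : D (fun v => P (fun i => v (i + 2)) (v 0)) :=
      h.perm (fun i => if i = 0 then 0 else i + 1)
    infer_instance
  refine ⟨h2.congr fun v => ?_⟩
  by_cases he : ∃! x, P (fun i => v (i + 1)) x
  · constructor
    · intro h
      left
      rw [h]
      exact ⟨iota_spec he, he⟩
    · rintro (h | h)
      · exact he.unique h.1 (iota_spec he)
      · exact absurd he h.1
  · rw [iota, dif_neg he]
    constructor
    · intro h
      exact Or.inr ⟨he, h⟩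
    · rintro (h | h)
      · exact absurd h.2 he
      · exact h.2

/-! ### separation -/

theorem sep_exists (a : M) (P : M → Prop) [h : D (fun v => P (v 0))] :
    ∃ b : M, ∀ x, x ∈ b ↔ x ∈ a ∧ P x := by
  obtain ⟨φ, k, h⟩ := h.out
  obtain ⟨b, hb⟩ := hZF.out.separation (ren (fun i => Sum.elim (fun j => if j = 0 then 0 else i + 1)
    (fun _ => i + 1) (k i)) φ) (fun i => Sum.elim (fun _ => a) id (k i)) a
  refine ⟨b, fun x => (hb x).trans (and_congr_right fun _ => ?_)⟩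
  have h1 : P x ↔ _ := h (push x (fun _ => a))
  rw [h1, sat_ren]
  have : (fun i => vp (push x (fun _ => a)) (k i)) = fun i => push x
      (fun i => Sum.elim (fun _ => a) id (k i))
      (Sum.elim (fun j => if j = 0 then 0 else i + 1) (fun _ => i + 1) (k i)) := by
    funext i
    rcases hk : k i with j | c
    · rcases j with _ | j
      · rfl
      · simp [vp, push, hk]
    · simp [vp, push, hk]
  rw [this]

/-- `{x ∈ a | P x}` -/
noncomputable def sep (a : M) (P : M → Prop) : M := coll (fun x => x ∈ a ∧ P x)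

theorem mem_sep {a : M} {P : M → Prop} [h : D (fun v => P (v 0))] {x : M} :
    x ∈ sep a P ↔ x ∈ a ∧ P x := mem_coll (sep_exists a P) x

instance DT_sep {a : (ℕ → M) → M} {P : (ℕ → M) → M → Prop} [ha : DT a]
    [h : D (fun v => P (fun i => v (i + 1)) (v 0))] : DT (fun v => sep (a v) (P v)) := by
  have := ha.shift 1
  unfold sep
  infer_instance

theorem coll_of_sub (a : M) (P : M → Prop) [h : D (fun v => P (v 0))] (hs : ∀ x, P x → x ∈ a)
    (x : M) : x ∈ coll P ↔ P x := by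
  refine mem_coll ?_ x
  obtain ⟨b, hb⟩ := sep_exists a P
  exact ⟨b, fun x => (hb x).trans ⟨fun h => h.2, fun h => ⟨hs x h, h⟩⟩⟩

/-! ### basic sets -/

noncomputable def emp : M := coll (fun _ => False)

theorem not_mem_emp (x : M) : x ∉ (emp : M) := by
  intro h
  have := (coll_of_sub (nonempty_of_zf (M := M)).some (fun _ => False) (fun _ h => h.elim) x).mp h
  exact this

noncomputable def upair (x y : M) : M := coll (fun z => z = x ∨ z = y)

theorem mem_upair {x y z : M} : z ∈ upair x y ↔ z = x ∨ z = y := mem_coll (hZF.out.pairing x y) z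

instance DT_upair (s t : (ℕ → M) → M) [DT s] [DT t] : DT (fun v => upair (s v) (t v)) := by
  refine DT2 (f := upair) ?_ s t
  unfold upair
  infer_instance

noncomputable def sU (a : M) : M := coll (fun x => ∃ y, y ∈ a ∧ x ∈ y)

theorem mem_sU {a x : M} : x ∈ sU a ↔ ∃ y, y ∈ a ∧ x ∈ y := mem_coll (hZF.out.union a) x

instance DT_sU (s : (ℕ → M) → M) [DT s] : DT (fun v => sU (s v)) := by
  refine DT1 (f := sU) ?_ s
  unfold sU
  infer_instance

noncomputable def pow (a : M) : M := coll (fun x => ∀ y, y ∈ x → y ∈ a)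

theorem mem_pow {a x : M} : x ∈ pow a ↔ ∀ y, y ∈ x → y ∈ a := mem_coll (hZF.out.powerset a) x

instance DT_pow (s : (ℕ → M) → M) [DT s] : DT (fun v => pow (s v)) := by
  refine DT1 (f := pow) ?_ s
  unfold pow
  infer_instance

noncomputable def un (a b : M) : M := sU (upair a b)

theorem mem_un {a b x : M} : x ∈ un a b ↔ x ∈ a ∨ x ∈ b := by
  simp only [un, mem_sU, mem_upair]
  constructor
  · rintro ⟨y, rfl | rfl, h⟩
    · exact Or.inl h
    · exact Or.inr h
  · rintro (h | h)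
    · exact ⟨a, Or.inl rfl, h⟩
    · exact ⟨b, Or.inr rfl, h⟩

instance DT_un (s t : (ℕ → M) → M) [DT s] [DT t] : DT (fun v => un (s v) (t v)) := by
  unfold un
  infer_instance

/-- the successor `x ∪ {x}` -/
noncomputable def suc (x : M) : M := un x (upair x x)

theorem mem_suc {x z : M} : z ∈ suc x ↔ z ∈ x ∨ z = x := by
  simp [suc, mem_un, mem_upair]

instance DT_suc (s : (ℕ → M) → M) [DT s] : DT (fun v => suc (s v)) := by
  unfold suc
  infer_instance

/-! ### ordered pairs -/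

noncomputable def pr (x y : M) : M := upair (upair x x) (upair x y)

instance DT_pr (s t : (ℕ → M) → M) [DT s] [DT t] : DT (fun v => pr (s v) (t v)) := by
  unfold pr
  infer_instance

theorem upair_inj {x y z w : M} (h : upair x y = upair z w) : (x = z ∧ y = w) ∨ (x = w ∧ y = z) := by
  have h1 : x = z ∨ x = w := mem_upair.mp (h ▸ mem_upair.mpr (Or.inl rfl))
  have h2 : y = z ∨ y = w := mem_upair.mp (h ▸ mem_upair.mpr (Or.inr rfl))
  have h3 : z = x ∨ z = y := mem_upair.mp (h ▸ mem_upair.mpr (Or.inl rfl))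
  have h4 : w = x ∨ w = y := mem_upair.mp (h ▸ mem_upair.mpr (Or.inr rfl))
  grind

theorem pr_inj {x y z w : M} (h : pr x y = pr z w) : x = z ∧ y = w := by
  rcases upair_inj h with ⟨h1, h2⟩ | ⟨h1, h2⟩
  · rcases upair_inj h1 with ⟨rfl, _⟩ | ⟨rfl, _⟩ <;> rcases upair_inj h2 with ⟨h3, rfl⟩ | ⟨h3, h4⟩
    · exact ⟨rfl, rfl⟩
    · exact ⟨rfl, h4.trans h3⟩
    · exact ⟨rfl, rfl⟩
    · exact ⟨rfl, h4.trans h3⟩
  · rcases upair_inj h1 with ⟨h3, h4⟩ | ⟨h3, h4⟩ <;> rcases upair_inj h2 with ⟨h5, h6⟩ | ⟨h5, h6⟩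
    · exact ⟨h3, by rw [h6, ← h3, h4]⟩
    · exact ⟨h3, by rw [h6, ← h3, h4]⟩
    · exact ⟨h4, by rw [h6, ← h4, h3]⟩
    · exact ⟨h4, by rw [h6, ← h4, h3]⟩

theorem isPair_iff {p x y : M} : IsPair p x y ↔ p = pr x y := by
  have h1 : ∀ z, (∀ w, w ∈ z ↔ w = x) ↔ z = upair x x := by
    intro z
    constructor
    · intro h
      exact ext fun w => by rw [h, mem_upair]; simp
    · rintro rfl w
      rw [mem_upair]; simp
  have h2 : ∀ z, (∀ w, w ∈ z ↔ w = x ∨ w = y) ↔ z = upair x y := by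
    intro z
    constructor
    · intro h
      exact ext fun w => by rw [h, mem_upair]
    · rintro rfl w
      rw [mem_upair]
  constructor
  · intro h
    exact ext fun z => by rw [h z, h1, h2, pr, mem_upair]
  · rintro rfl z
    rw [h1, h2, pr, mem_upair]

theorem app_iff {f x y : M} : App f x y ↔ pr x y ∈ f := by
  simp [App, isPair_iff]

instance D_App (r s t : (ℕ → M) → M) [DT r] [DT s] [DT t] : D (fun v => App (r v) (s v) (t v)) := by
  simp only [app_iff]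
  infer_instance

theorem app2_iff {f x y z : M} : App2 f x y z ↔ pr (pr x y) z ∈ f := by
  simp [App2, isPair_iff, app_iff]

instance D_App2 (r s t q : (ℕ → M) → M) [DT r] [DT s] [DT t] [DT q] :
    D (fun v => App2 (r v) (s v) (t v) (q v)) := by
  simp only [app2_iff]
  infer_instance

/-- value of a function -/
noncomputable def ap (f x : M) : M := iota (fun y => App f x y)

instance DT_ap (s t : (ℕ → M) → M) [DT s] [DT t] : DT (fun v => ap (s v) (t v)) := by
  refine DT2 (f := ap) ?_ s t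
  unfold ap
  infer_instance

instance D_IsFun (r s t : (ℕ → M) → M) [DT r] [DT s] [DT t] :
    D (fun v => IsFun (r v) (s v) (t v)) := by
  refine D3 (P := IsFun) ?_ r s t
  simp only [IsFun, isPair_iff]
  infer_instance

theorem IsFun.mem {f a b x : M} (h : IsFun f a b) (hx : x ∈ a) : App f x (ap f x) :=
  iota_spec (h.2 x hx)

theorem IsFun.ap_mem {f a b x : M} (h : IsFun f a b) (hx : x ∈ a) : ap f x ∈ b := by
  obtain ⟨p, h1, h2⟩ := h.mem hx
  obtain ⟨x', y', _, hy', h3⟩ := h.1 p h2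
  rw [isPair_iff] at h1 h3
  obtain ⟨_, h4⟩ := pr_inj (h1.symm.trans h3)
  rw [h4]; exact hy'

theorem IsFun.app {f a b x y : M} (h : IsFun f a b) : App f x y ↔ x ∈ a ∧ y = ap f x := by
  constructor
  · rintro ⟨p, h1, h2⟩
    obtain ⟨x', y', hx', hy', h3⟩ := h.1 p h2
    rw [isPair_iff] at h1 h3
    obtain ⟨rfl, rfl⟩ := pr_inj (h1.symm.trans h3)
    exact ⟨hx', (h.2 x hx').unique ⟨p, isPair_iff.mpr h1, h2⟩ (h.mem hx')⟩
  · rintro ⟨hx, rfl⟩
    exact h.mem hx

theorem IsFun.ext {f g a b b' : M} (h : IsFun f a b) (h' : IsFun g a b')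
    (e : ∀ x, x ∈ a → ap f x = ap g x) : f = g := by
  refine Pool.Agent.Lib.MP_f5c99b_lc.ext fun p => ?_
  constructor
  · intro hp
    obtain ⟨x, y, _, _, h1⟩ := h.1 p hp
    rw [isPair_iff] at h1
    subst h1
    obtain ⟨hx, rfl⟩ := h.app.mp (app_iff.mpr hp)
    rw [e x hx]
    exact app_iff.mp (h'.mem hx)
  · intro hp
    obtain ⟨x, y, _, _, h1⟩ := h'.1 p hp
    rw [isPair_iff] at h1
    subst h1
    obtain ⟨hx, rfl⟩ := h'.app.mp (app_iff.mpr hp)
    rw [← e x hx]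
    exact app_iff.mp (h.mem hx)

/-- cartesian product -/
noncomputable def prod (a b : M) : M := coll (fun p => ∃ x, x ∈ a ∧ ∃ y, y ∈ b ∧ p = pr x y)

theorem mem_prod {a b p : M} : p ∈ prod a b ↔ ∃ x, x ∈ a ∧ ∃ y, y ∈ b ∧ p = pr x y := by
  refine coll_of_sub (pow (pow (un a b))) _ ?_ p
  rintro p ⟨x, hx, y, hy, rfl⟩
  rw [mem_pow]
  intro z hz
  rw [mem_pow]
  intro w hw
  rw [mem_un]
  rcases mem_upair.mp hz with rfl | rfl
  · rcases mem_upair.mp hw with rfl | rfl <;> exact Or.inl hx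
  · rcases mem_upair.mp hw with rfl | rfl
    · exact Or.inl hx
    · exact Or.inr hy

instance DT_prod (s t : (ℕ → M) → M) [DT s] [DT t] : DT (fun v => prod (s v) (t v)) := by
  refine DT2 (f := prod) ?_ s t
  unfold prod
  infer_instance

/-- the function `x ↦ t x` on `a` -/
noncomputable def lam (a : M) (t : M → M) : M := coll (fun p => ∃ x, x ∈ a ∧ p = pr x (t x))

instance DT_lam {a : (ℕ → M) → M} {t : (ℕ → M) → M → M} [ha : DT a]
    [h : DT (fun v => t (fun i => v (i + 1)) (v 0))] : DT (fun v => lam (a v) (t v)) := by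
  have h1 := ha.shift 2
  have h2 : DT (fun v => t (fun i => v (i + 2)) (v 0)) :=
    h.perm (fun i => if i = 0 then 0 else i + 1)
  unfold lam
  infer_instance

theorem mem_lam {a b : M} {t : M → M} [h : DT (fun v => t (v 0))] (ht : ∀ x, x ∈ a → t x ∈ b)
    {p : M} : p ∈ lam a t ↔ ∃ x, x ∈ a ∧ p = pr x (t x) := by
  refine coll_of_sub (prod a b) _ ?_ p
  rintro p ⟨x, hx, rfl⟩
  exact mem_prod.mpr ⟨x, hx, t x, ht x hx, rfl⟩

theorem isFun_lam {a b : M} {t : M → M} [h : DT (fun v => t (v 0))] (ht : ∀ x, x ∈ a → t x ∈ b) :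
    IsFun (lam a t) a b := by
  constructor
  · intro p hp
    obtain ⟨x, hx, rfl⟩ := (mem_lam ht).mp hp
    exact ⟨x, t x, hx, ht x hx, isPair_iff.mpr rfl⟩
  · intro x hx
    refine ⟨t x, app_iff.mpr ((mem_lam ht).mpr ⟨x, hx, rfl⟩), ?_⟩
    intro y hy
    obtain ⟨x', _, h1⟩ := (mem_lam ht).mp (app_iff.mp hy)
    obtain ⟨rfl, rfl⟩ := pr_inj h1
    rfl

theorem ap_lam {a b : M} {t : M → M} [h : DT (fun v => t (v 0))] (ht : ∀ x, x ∈ a → t x ∈ b)
    {x : M} (hx : x ∈ a) : ap (lam a t) x = t x := by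
  have h1 := (isFun_lam ht).mem hx
  obtain ⟨x', _, h1⟩ := (mem_lam ht).mp (app_iff.mp h1)
  obtain ⟨rfl, h2⟩ := pr_inj h1
  exact h2

/-- the set of functions from `a` to `b` -/
noncomputable def funs (a b : M) : M := coll (fun f => IsFun f a b)

theorem mem_funs {a b f : M} : f ∈ funs a b ↔ IsFun f a b := by
  refine coll_of_sub (pow (prod a b)) _ ?_ f
  intro f hf
  rw [mem_pow]
  intro p hp
  obtain ⟨x, y, hx, hy, h⟩ := hf.1 p hp
  exact mem_prod.mpr ⟨x, hx, y, hy, isPair_iff.mp h⟩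

end

end Pool.Agent.Lib.MP_f5c99b_lc

/-! Topology in a model of `ZF`: neighbourhood arguments. -/

namespace Pool.Agent.Lib.MP_f5c99b_lc

universe u

variable {M : Type u} [Membership M M] [hZF : Fact (IsModelOfZF M)]

omit hZF in
theorem D_IsTopology_aux : D (fun v : ℕ → M => IsTopology (v 0) (v 1)) := by
  unfold IsTopology
  infer_instance

omit hZF in
instance D_IsTopology (s t : (ℕ → M) → M) [DT s] [DT t] :
    D (fun v => IsTopology (s v) (t v)) := D2 D_IsTopology_aux s t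

noncomputable def inter (a b : M) : M := sep a (fun x => x ∈ b)

theorem mem_inter {a b x : M} : x ∈ inter a b ↔ x ∈ a ∧ x ∈ b := mem_sep

instance DT_inter (s t : (ℕ → M) → M) [DT s] [DT t] : DT (fun v => inter (s v) (t v)) := by
  refine DT2 (f := inter) ?_ s t
  unfold inter
  infer_instance

noncomputable def diff (a b : M) : M := sep a (fun x => x ∉ b)

theorem mem_diff {a b x : M} : x ∈ diff a b ↔ x ∈ a ∧ x ∉ b := mem_sep

instance DT_diff (s t : (ℕ → M) → M) [DT s] [DT t] : DT (fun v => diff (s v) (t v)) := by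
  refine DT2 (f := diff) ?_ s t
  unfold diff
  infer_instance

theorem IsTopology.inter {X T U V : M} (h : IsTopology X T) (hU : U ∈ T) (hV : V ∈ T) :
    inter U V ∈ T := h.2.2.1 U V _ hU hV fun _ => mem_inter

theorem IsTopology.of_nbhd {X T W : M} (h : IsTopology X T)
    (hW : ∀ x, x ∈ W → ∃ V, V ∈ T ∧ x ∈ V ∧ ∀ y, y ∈ V → y ∈ W) : W ∈ T := by
  refine h.2.2.2 (sep T (fun V => ∀ y, y ∈ V → y ∈ W)) W (fun U hU => (mem_sep.mp hU).1) ?_
  intro x
  constructor
  · intro hx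
    obtain ⟨V, h1, h2, h3⟩ := hW x hx
    exact ⟨V, mem_sep.mpr ⟨h1, h3⟩, h2⟩
  · rintro ⟨V, h1, h2⟩
    exact (mem_sep.mp h1).2 x h2

/-- neighbourhoods of a point in a generated topology -/
theorem IsGenerated.nbhd {X T : M} {G : M → Prop} (h : IsGenerated X G T) (z : M) (N : M → Prop)
    [hN : D (fun v => N (v 0))] (h1 : N X) (h2 : ∀ U V, N U → N V → N (inter U V))
    (h3 : ∀ U V, N U → (∀ x, x ∈ U → x ∈ V) → (∀ x, x ∈ V → x ∈ X) → N V)
    (h4 : ∀ U, G U → z ∈ U → N U) : ∀ U, U ∈ T → z ∈ U → N U := by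
  intro U hU
  have hT : IsTopology X (sep (pow X) (fun U => z ∈ U → N U)) := by
    refine ⟨?_, ?_, ?_, ?_⟩
    · intro U hU
      exact mem_pow.mp (mem_sep.mp hU).1
    · exact mem_sep.mpr ⟨mem_pow.mpr fun _ h => h, fun _ => h1⟩
    · intro U V W hU hV hW
      obtain rfl : W = inter U V := ext fun x => (hW x).trans mem_inter.symm
      obtain ⟨hU1, hU2⟩ := mem_sep.mp hU
      obtain ⟨hV1, hV2⟩ := mem_sep.mp hV
      refine mem_sep.mpr ⟨mem_pow.mpr fun x hx => mem_pow.mp hU1 x (mem_inter.mp hx).1, ?_⟩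
      intro hz
      exact h2 U V (hU2 (mem_inter.mp hz).1) (hV2 (mem_inter.mp hz).2)
    · intro S W hS hW
      have hWX : ∀ x, x ∈ W → x ∈ X := by
        intro x hx
        obtain ⟨U, hU, hxU⟩ := (hW x).mp hx
        exact mem_pow.mp (mem_sep.mp (hS U hU)).1 x hxU
      refine mem_sep.mpr ⟨mem_pow.mpr hWX, ?_⟩
      intro hz
      obtain ⟨U, hU, hzU⟩ := (hW z).mp hz
      exact h3 U W ((mem_sep.mp (hS U hU)).2 hzU) (fun x hx => (hW x).mpr ⟨U, hU, hx⟩) hWX
  have hG : ∀ U, G U → U ∈ sep (pow X) (fun U => z ∈ U → N U) := by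
    intro U hU
    exact mem_sep.mpr ⟨mem_pow.mpr (h.1.1 U (h.2.1 U hU)), h4 U hU⟩
  exact (mem_sep.mp (h.2.2 _ hT hG U hU)).2

/-- `{g ∈ P | g j ∈ V}` -/
noncomputable def cyl (P j V : M) : M := sep P (fun g => ap g j ∈ V)

theorem mem_cyl {P j V g : M} : g ∈ cyl P j V ↔ g ∈ P ∧ ap g j ∈ V := mem_sep

instance DT_cyl (r s t : (ℕ → M) → M) [DT r] [DT s] [DT t] :
    DT (fun v => cyl (r v) (s v) (t v)) := by
  refine DT3 (f := cyl) ?_ r s t
  unfold cyl
  infer_instance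

theorem cyl_mem {J Y S P Q j V : M} (h : IsPower J Y S P Q) (hj : j ∈ J) (hV : V ∈ S) :
    cyl P j V ∈ Q := by
  refine h.2.2.1 _ ⟨j, V, hj, hV, fun g => ?_⟩
  rw [mem_cyl]
  refine and_congr_right fun hg => ?_
  have := (h.1 g).mp hg
  constructor
  · intro h1
    exact ⟨_, h1, this.mem hj⟩
  · rintro ⟨y, hy, hy'⟩
    obtain ⟨_, rfl⟩ := this.app.mp hy'
    exact hy

/-- neighbourhoods of a point in a power -/
theorem IsPower.nbhd {J Y S P Q : M} {G : M → Prop} (h : IsPower J Y S P Q)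
    (hS : IsGenerated Y G S) (z : M) (N : M → Prop)
    [hN : D (fun v => N (v 0))] (h1 : N P) (h2 : ∀ U V, N U → N V → N (inter U V))
    (h3 : ∀ U V, N U → (∀ x, x ∈ U → x ∈ V) → (∀ x, x ∈ V → x ∈ P) → N V)
    (h4 : ∀ j, j ∈ J → ∀ V, G V → ap z j ∈ V → N (cyl P j V)) : ∀ U, U ∈ Q → z ∈ U → N U := by
  refine h.2.nbhd z N h1 h2 h3 ?_
  rintro U ⟨j, V, hj, hV, hU⟩ hz
  have hfun : ∀ g, g ∈ P → IsFun g J Y := fun g hg => (h.1 g).mp hg
  have e : U = cyl P j V := by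
    refine ext fun g => ?_
    rw [hU g, mem_cyl]
    refine and_congr_right fun hg => ?_
    constructor
    · rintro ⟨y, hy, hy'⟩
      obtain ⟨_, rfl⟩ := (hfun g hg).app.mp hy'
      exact hy
    · intro h1
      exact ⟨_, h1, (hfun g hg).mem hj⟩
  rw [e] at hz ⊢
  have : D (fun v => N (cyl P j (v 0))) := D1 hN (fun v => cyl P j (v 0))
  refine hS.nbhd (ap z j) (fun V => N (cyl P j V)) ?_ ?_ ?_ (fun V hV hz => h4 j hj V hV hz) V hV
    (mem_cyl.mp hz).2
  · have : cyl P j Y = P := by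
      refine ext fun g => ?_
      rw [mem_cyl]
      exact ⟨fun h => h.1, fun hg => ⟨hg, (hfun g hg).ap_mem hj⟩⟩
    rw [this]; exact h1
  · intro U V hU hV
    have : cyl P j (inter U V) = inter (cyl P j U) (cyl P j V) := by
      refine ext fun g => ?_
      simp only [mem_cyl, mem_inter]
      tauto
    rw [this]
    exact h2 _ _ hU hV
  · intro U V hU hUV hV
    refine h3 _ _ hU ?_ ?_
    · intro g hg
      rw [mem_cyl] at hg ⊢
      exact ⟨hg.1, hUV _ hg.2⟩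
    · intro g hg
      exact (mem_cyl.mp hg).1

/-- existence of powers -/
noncomputable def powQ (J Y S : M) : M :=
  sep (pow (funs J Y)) (fun U => ∀ T', IsTopology (funs J Y) T' →
    (∀ j V, j ∈ J → V ∈ S → cyl (funs J Y) j V ∈ T') → U ∈ T')

theorem D_powQ_aux (J Y S : M) : D (fun v : ℕ → M => ∀ T', IsTopology (funs J Y) T' →
    (∀ j V, j ∈ J → V ∈ S → cyl (funs J Y) j V ∈ T') → v 0 ∈ T') := by
  infer_instance

theorem isPower_powQ {J Y S : M} : IsPower J Y S (funs J Y) (powQ J Y S) := by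
  have hm : ∀ {U}, U ∈ powQ J Y S ↔ U ∈ pow (funs J Y) ∧ ∀ T', IsTopology (funs J Y) T' →
      (∀ j V, j ∈ J → V ∈ S → cyl (funs J Y) j V ∈ T') → U ∈ T' := by
    intro U
    have := D_powQ_aux J Y S
    exact mem_sep
  have hfun : ∀ g, g ∈ funs J Y → IsFun g J Y := fun g hg => mem_funs.mp hg
  have hcyl : ∀ U j V, j ∈ J → (∀ g, g ∈ U ↔ g ∈ funs J Y ∧ ∃ y, y ∈ V ∧ App g j y) →
      U = cyl (funs J Y) j V := by
    intro U j V hj hU
    refine ext fun g => ?_
    rw [hU g, mem_cyl]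
    refine and_congr_right fun hg => ?_
    constructor
    · rintro ⟨y, hy, hy'⟩
      obtain ⟨_, rfl⟩ := (hfun g hg).app.mp hy'
      exact hy
    · intro h1
      exact ⟨_, h1, (hfun g hg).mem hj⟩
  refine ⟨fun g => mem_funs, ⟨?_, ?_, ?_, ?_⟩, ?_, ?_⟩
  · intro U hU
    exact mem_pow.mp (hm.mp hU).1
  · exact hm.mpr ⟨mem_pow.mpr fun _ h => h, fun T' hT' _ => hT'.2.1⟩
  · intro U V W hU hV hW
    obtain rfl : W = inter U V := ext fun x => (hW x).trans mem_inter.symm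
    obtain ⟨hU1, hU2⟩ := hm.mp hU
    obtain ⟨hV1, hV2⟩ := hm.mp hV
    refine hm.mpr ⟨mem_pow.mpr fun x hx => mem_pow.mp hU1 x (mem_inter.mp hx).1, ?_⟩
    intro T' hT' h
    exact hT'.inter (hU2 T' hT' h) (hV2 T' hT' h)
  · intro S' W hS hW
    refine hm.mpr ⟨mem_pow.mpr ?_, ?_⟩
    · intro x hx
      obtain ⟨U, hU, hxU⟩ := (hW x).mp hx
      exact mem_pow.mp (hm.mp (hS U hU)).1 x hxU
    · intro T' hT' h
      exact hT'.2.2.2 S' W (fun U hU => (hm.mp (hS U hU)).2 T' hT' h) hW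
  · rintro U ⟨j, V, hj, hV, hU⟩
    rw [hcyl U j V hj hU]
    refine hm.mpr ⟨mem_pow.mpr fun x hx => (mem_cyl.mp hx).1, fun T' _ h => h j V hj hV⟩
  · intro T' hT' h U hU
    refine (hm.mp hU).2 T' hT' fun j V hj hV => ?_
    refine h _ ⟨j, V, hj, hV, fun g => ?_⟩
    rw [mem_cyl]
    refine and_congr_right fun hg => ?_
    constructor
    · intro h1
      exact ⟨_, h1, (hfun g hg).mem hj⟩
    · rintro ⟨y, hy, hy'⟩
      obtain ⟨_, rfl⟩ := (hfun g hg).app.mp hy'
      exact hy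

end Pool.Agent.Lib.MP_f5c99b_lc

/-! The real line of a model of `ZF`: definability of arithmetic, continuous real functions. -/

namespace Pool.Agent.Lib.MP_f5c99b_lc

universe u

variable {M : Type u} [Membership M M] [hZF : Fact (IsModelOfZF M)] {K : RealField M}

variable (K) in
/-- the real number `x`, or `0` if `x` is not a real number -/
noncomputable def toF (x : M) : El K.R := open Classical in if h : x ∈ K.R then ⟨x, h⟩ else 0

omit hZF in
theorem toF_val (a : El K.R) : toF K a.1 = a := by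
  rw [toF, dif_pos a.2]

omit hZF in
theorem val_toF {x : M} (h : x ∈ K.R) : (toF K x).1 = x := by
  rw [toF, dif_pos h]

omit hZF in
theorem toF_out {x : M} (h : x ∉ K.R) : toF K x = 0 := by
  rw [toF, dif_neg h]

variable (K) in
/-- `t` is a definable real-valued term -/
class DR (t : (ℕ → M) → El K.R) : Prop where
  out : DT (fun v => (t v).1)

instance DT_val (t : (ℕ → M) → El K.R) [h : DR K t] : DT (fun v => (t v).1) := h.out

instance DR_const (a : El K.R) : DR K (fun _ => a) := ⟨inferInstance⟩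

omit hZF in
theorem DR.shift {t : (ℕ → M) → El K.R} (h : DR K t) (k : ℕ) :
    DR K (fun v => t (fun i => v (i + k))) := ⟨h.out.shift k⟩

omit hZF in
theorem DR.perm {t : (ℕ → M) → El K.R} (h : DR K t) (ρ : ℕ → ℕ) :
    DR K (fun v => t (fun i => v (ρ i))) := ⟨h.out.perm ρ⟩

omit hZF in
theorem DR_of (t : (ℕ → M) → El K.R) {P : (ℕ → M) → M → Prop}
    [h : D (fun v => P (fun i => v (i + 1)) (v 0))] (e : ∀ v x, x = (t v).1 ↔ P v x) : DR K t :=
  ⟨DT_of h e⟩

omit hZF in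
theorem DR1 {t : M → El K.R} (h : DR K (fun v => t (v 0))) (s : (ℕ → M) → M) [hs : DT s] :
    DR K (fun v => t (s v)) := ⟨DT1 (f := fun x => (t x).1) h.out s⟩

instance DR_toF (t : (ℕ → M) → M) [h : DT t] : DR K (fun v => toF K (t v)) := by
  have h1 : DR K (fun v => toF K (v 0)) := by
    refine DR_of (P := fun v z => (v 0 ∈ K.R ∧ z = v 0) ∨ (v 0 ∉ K.R ∧ z = (0 : El K.R).1)) _ ?_
    intro v x
    by_cases h : v 0 ∈ K.R
    · simp [val_toF h, h]
    · simp [toF_out h, h]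
  exact DR1 h1 t

instance DR_add (s t : (ℕ → M) → El K.R) [hs : DR K s] [ht : DR K t] :
    DR K (fun v => s v + t v) := by
  have h1 := hs.shift 1
  have h2 := ht.shift 1
  refine DR_of (P := fun v z => z ∈ K.R ∧ App2 K.A (s v).1 (t v).1 z) _ ?_
  intro v x
  constructor
  · rintro rfl
    exact ⟨(s v + t v).2, (K.add_iff _ _ _).mpr rfl⟩
  · rintro ⟨hx, h⟩
    have := (K.add_iff (s v) (t v) ⟨x, hx⟩).mp h
    rw [this]

instance DR_mul (s t : (ℕ → M) → El K.R) [hs : DR K s] [ht : DR K t] :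
    DR K (fun v => s v * t v) := by
  have h1 := hs.shift 1
  have h2 := ht.shift 1
  refine DR_of (P := fun v z => z ∈ K.R ∧ App2 K.B (s v).1 (t v).1 z) _ ?_
  intro v x
  constructor
  · rintro rfl
    exact ⟨(s v * t v).2, (K.mul_iff _ _ _).mpr rfl⟩
  · rintro ⟨hx, h⟩
    have := (K.mul_iff (s v) (t v) ⟨x, hx⟩).mp h
    rw [this]

instance DR_neg (s : (ℕ → M) → El K.R) [hs : DR K s] : DR K (fun v => - s v) := by
  have h1 := hs.shift 1
  refine DR_of (P := fun v z => z ∈ K.R ∧ App2 K.A (s v).1 z (0 : El K.R).1) _ ?_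
  intro v x
  constructor
  · rintro rfl
    exact ⟨(- s v).2, (K.add_iff _ _ _).mpr (by simp)⟩
  · rintro ⟨hx, h⟩
    have := (K.add_iff (s v) ⟨x, hx⟩ 0).mp h
    rw [← eq_neg_of_add_eq_zero_right this]

instance DR_sub (s t : (ℕ → M) → El K.R) [hs : DR K s] [ht : DR K t] :
    DR K (fun v => s v - t v) := by
  simp only [sub_eq_add_neg]
  infer_instance

instance D_lt (s t : (ℕ → M) → El K.R) [hs : DR K s] [ht : DR K t] :
    D (fun v => s v < t v) :=
  (inferInstance : D (fun v => App K.L (s v).1 (t v).1)).congr fun _ => (K.lt_iff _ _).symm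

instance D_le (s t : (ℕ → M) → El K.R) [hs : DR K s] [ht : DR K t] :
    D (fun v => s v ≤ t v) :=
  (inferInstance : D (fun v => ¬ t v < s v)).congr fun _ => not_lt.symm

instance D_eqF (s t : (ℕ → M) → El K.R) [hs : DR K s] [ht : DR K t] :
    D (fun v => s v = t v) :=
  (inferInstance : D (fun v => (s v).1 = (t v).1)).congr fun _ => Subtype.ext_iff

instance DR_max (s t : (ℕ → M) → El K.R) [hs : DR K s] [ht : DR K t] :
    DR K (fun v => max (s v) (t v)) := by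
  have h1 := hs.shift 1
  have h2 := ht.shift 1
  refine DR_of (P := fun v z => (s v ≤ t v ∧ z = (t v).1) ∨ (t v < s v ∧ z = (s v).1)) _ ?_
  intro v x
  rcases le_or_gt (s v) (t v) with h | h
  · simp [max_eq_right h, h, not_lt.mpr h]
  · simp [max_eq_left h.le, h, not_le.mpr h]

instance DR_min (s t : (ℕ → M) → El K.R) [hs : DR K s] [ht : DR K t] :
    DR K (fun v => min (s v) (t v)) := by
  have h1 := hs.shift 1
  have h2 := ht.shift 1
  refine DR_of (P := fun v z => (s v ≤ t v ∧ z = (s v).1) ∨ (t v < s v ∧ z = (t v).1)) _ ?_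
  intro v x
  rcases le_or_gt (s v) (t v) with h | h
  · simp [min_eq_left h, h, not_lt.mpr h]
  · simp [min_eq_right h.le, h, not_le.mpr h]

instance DR_abs (s : (ℕ → M) → El K.R) [hs : DR K s] : DR K (fun v => |s v|) :=
  (inferInstance : DR K (fun v => max (s v) (- s v)))

instance D_allF {P : (ℕ → M) → El K.R → Prop}
    [h : D (fun v => P (fun i => v (i + 1)) (toF K (v 0)))] : D (fun v => ∀ a, P v a) := by
  have h1 : D (fun v : ℕ → M => ∀ x : M, x ∈ K.R → P v (toF K x)) := inferInstance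
  refine h1.congr fun v => ⟨fun h x _ => h _, fun h a => ?_⟩
  have := h a.1 a.2
  rwa [toF_val] at this

instance D_exF {P : (ℕ → M) → El K.R → Prop}
    [h : D (fun v => P (fun i => v (i + 1)) (toF K (v 0)))] : D (fun v => ∃ a, P v a) := by
  have h1 : D (fun v : ℕ → M => ∃ x : M, x ∈ K.R ∧ P v (toF K x)) := inferInstance
  refine h1.congr fun v => ⟨fun ⟨a, h⟩ => ⟨a.1, a.2, ?_⟩, fun ⟨x, _, h⟩ => ⟨_, h⟩⟩
  rwa [toF_val]

/-! ### continuous real functions -/

/-- continuity of `t : X → ℝ` -/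
def Cts (X T : M) (t : M → El K.R) : Prop :=
  ∀ x, x ∈ X → ∀ ε : El K.R, 0 < ε → ∃ U, U ∈ T ∧ x ∈ U ∧ ∀ y, y ∈ U → |t y - t x| < ε

omit hZF in
theorem Cts.lip {X T : M} {s t : M → El K.R} (hT : IsTopology X T) (h : Cts X T t) (c : El K.R)
    (hc : 0 < c) (hs : ∀ x y, x ∈ X → y ∈ X → |s y - s x| ≤ c * |t y - t x|) : Cts X T s := by
  intro x hx ε hε
  obtain ⟨U, hU, hxU, h1⟩ := h x hx (ε / c) (div_pos hε hc)
  refine ⟨U, hU, hxU, fun y hy => (hs x y hx (hT.1 U hU y hy)).trans_lt ?_⟩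
  have := h1 y hy
  rwa [lt_div_iff₀' hc] at this

theorem Cts.isContinuous {X T S : M} {t : M → El K.R} [ht : DR K (fun v => t (v 0))]
    (hT : IsTopology X T) (hS : IsUsual K S) (h : Cts X T t) :
    IsContinuous (lam X (fun x => (t x).1)) X T K.R S := by
  have hm : ∀ x, x ∈ X → (t x).1 ∈ K.R := fun x _ => (t x).2
  have hf : IsFun (lam X (fun x => (t x).1)) X K.R := isFun_lam hm
  refine ⟨hf, fun V U hV hU => hT.of_nbhd fun x hx => ?_⟩
  obtain ⟨hxX, y, hy, hxy⟩ := (hU x).mp hx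
  obtain ⟨_, rfl⟩ := hf.app.mp hxy
  rw [ap_lam hm hxX] at hy
  have hUm : ∀ y, y ∈ X → (t y).1 ∈ V → y ∈ U := by
    intro y hy hyV
    refine (hU y).mpr ⟨hy, (t y).1, hyV, hf.app.mpr ⟨hy, ?_⟩⟩
    rw [ap_lam hm hy]
  have key := hS.nbhd (t x).1 (fun W => ∃ U', U' ∈ T ∧ x ∈ U' ∧ ∀ y, y ∈ U' → (t y).1 ∈ W)
    ⟨X, hT.2.1, hxX, fun y _ => (t y).2⟩ ?_ ?_ ?_ V hV hy
  · obtain ⟨U', h1, h2, h3⟩ := key
    exact ⟨U', h1, h2, fun y hy => hUm y (hT.1 U' h1 y hy) (h3 y hy)⟩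
  · rintro W W' ⟨U₁, h1, h2, h3⟩ ⟨U₂, h1', h2', h3'⟩
    refine ⟨inter U₁ U₂, hT.inter h1 h1', mem_inter.mpr ⟨h2, h2'⟩, fun y hy => ?_⟩
    exact mem_inter.mpr ⟨h3 y (mem_inter.mp hy).1, h3' y (mem_inter.mp hy).2⟩
  · rintro W W' ⟨U₁, h1, h2, h3⟩ hW _
    exact ⟨U₁, h1, h2, fun y hy => hW _ (h3 y hy)⟩
  · rintro W ⟨a, hW | hW⟩ hz
    · obtain ⟨y, hy, hya⟩ := (hW _).mp hz
      obtain rfl : y = t x := Subtype.ext hy
      obtain ⟨U', h1, h2, h3⟩ := h x hxX (a - t x) (sub_pos.mpr hya)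
      refine ⟨U', h1, h2, fun y hy => (hW _).mpr ⟨t y, rfl, ?_⟩⟩
      have := (abs_lt.mp (h3 y hy)).2
      linarith
    · obtain ⟨y, hy, hya⟩ := (hW _).mp hz
      obtain rfl : y = t x := Subtype.ext hy
      obtain ⟨U', h1, h2, h3⟩ := h x hxX (t x - a) (sub_pos.mpr hya)
      refine ⟨U', h1, h2, fun y hy => (hW _).mpr ⟨t y, rfl, ?_⟩⟩
      have := (abs_lt.mp (h3 y hy)).1
      linarith

theorem szd {X T S : M} {t : M → El K.R} [ht : DR K (fun v => t (v 0))]
    (hT : IsTopology X T) (hS : IsUsual K S) (hZ : IsStronglyZeroDim K X T) (h : Cts X T t) :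
    ∃ C, C ∈ T ∧ diff X C ∈ T ∧ (∀ x, x ∈ X → t x ≤ 0 → x ∈ C) ∧ ∀ x, x ∈ X → 1 ≤ t x → x ∉ C := by
  have hc : Cts X T (fun x => max 0 (min 1 (t x))) := by
    refine h.lip hT 1 one_pos fun x y _ _ => ?_
    rw [one_mul]
    have h1 : |max 0 (min 1 (t y)) - max 0 (min 1 (t x))| ≤ |min 1 (t y) - min 1 (t x)| := by
      have := abs_max_sub_max_le_max 0 (min 1 (t y)) 0 (min 1 (t x))
      simpa using this
    have h2 : |min 1 (t y) - min 1 (t x)| ≤ |t y - t x| := by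
      have := abs_min_sub_min_le_max 1 (t y) 1 (t x)
      simpa using this
    exact h1.trans h2
  have hcont := hc.isContinuous hT hS
  have hm : ∀ x, x ∈ X → (max 0 (min 1 (t x))).1 ∈ K.R := fun x _ => Subtype.property _
  have k1 : ∀ (x : M) (y : El K.R), App (lam X (fun x => (max 0 (min 1 (t x))).1)) x y.1 →
      0 ≤ y ∧ y ≤ 1 := by
    intro x y hxy
    obtain ⟨hx, hy⟩ := hcont.1.app.mp hxy
    rw [ap_lam hm hx] at hy
    obtain rfl : y = max 0 (min 1 (t x)) := Subtype.ext hy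
    exact ⟨le_max_left _ _, max_le zero_le_one (min_le_left _ _)⟩
  have k2 : ∀ x, x ∈ sep X (fun x => t x ≤ 0) → x ∈ X ∧
      App (lam X (fun x => (max 0 (min 1 (t x))).1)) x (0 : El K.R).1 := by
    intro x hx
    obtain ⟨hx, h6⟩ := mem_sep.mp hx
    refine ⟨hx, hcont.1.app.mpr ⟨hx, ?_⟩⟩
    rw [ap_lam hm hx, min_eq_right (h6.trans zero_le_one), max_eq_left h6]
  have k3 : ∀ x, x ∈ sep X (fun x => 1 ≤ t x) → x ∈ X ∧
      App (lam X (fun x => (max 0 (min 1 (t x))).1)) x (1 : El K.R).1 := by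
    intro x hx
    obtain ⟨hx, h6⟩ := mem_sep.mp hx
    refine ⟨hx, hcont.1.app.mpr ⟨hx, ?_⟩⟩
    rw [ap_lam hm hx, min_eq_left h6, max_eq_right zero_le_one]
  obtain ⟨C, C', h1, h2, h3, h4, h5⟩ := hZ S _ (sep X (fun x => t x ≤ 0)) (sep X (fun x => 1 ≤ t x))
    hS hcont k1 k2 k3
  refine ⟨C, h1, ?_, fun x hx h => h4 x (mem_sep.mpr ⟨hx, h⟩),
    fun x hx h => h5 x (mem_sep.mpr ⟨hx, h⟩)⟩
  have : diff X C = C' := ext fun x => by rw [mem_diff, h3]
  rw [this]
  exact h2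

end Pool.Agent.Lib.MP_f5c99b_lc

/-! Natural numbers of a model of `ZF` and their embedding into the reals. -/

namespace Pool.Agent.Lib.MP_f5c99b_lc

universe u

variable {M : Type u} [Membership M M] [hZF : Fact (IsModelOfZF M)]

/-- inductive sets -/
def Ind (a : M) : Prop := emp ∈ a ∧ ∀ x, x ∈ a → suc x ∈ a

theorem ind_iff {a : M} : Ind a ↔ (∃ e : M, e ∈ a ∧ ∀ x : M, x ∉ e) ∧
    ∀ x : M, x ∈ a → ∃ y : M, y ∈ a ∧ ∀ z : M, z ∈ y ↔ z ∈ x ∨ z = x := by
  constructor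
  · rintro ⟨h1, h2⟩
    exact ⟨⟨emp, h1, not_mem_emp⟩, fun x hx => ⟨suc x, h2 x hx, fun z => mem_suc⟩⟩
  · rintro ⟨⟨e, h1, h2⟩, h3⟩
    refine ⟨?_, fun x hx => ?_⟩
    · rwa [show (emp : M) = e from ext fun x => iff_of_false (not_mem_emp x) (h2 x)]
    · obtain ⟨y, h4, h5⟩ := h3 x hx
      rwa [show suc x = y from ext fun z => mem_suc.trans (h5 z).symm]

instance D_Ind (s : (ℕ → M) → M) [DT s] : D (fun v => Ind (s v)) := by
  refine D1 (P := Ind) ?_ s
  unfold Ind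
  infer_instance

variable (M) in
noncomputable def infSet : M := hZF.out.infinity.choose

theorem ind_infSet : Ind (infSet M) := ind_iff.mpr hZF.out.infinity.choose_spec

variable (M) in
noncomputable def omega : M := sep (infSet M) (fun n => ∀ b : M, Ind b → n ∈ b)

theorem mem_omega {n : M} : n ∈ omega M ↔ ∀ b : M, Ind b → n ∈ b :=
  mem_sep.trans ⟨fun h => h.2, fun h => ⟨h _ ind_infSet, h⟩⟩

theorem ind_omega : Ind (omega M) :=
  ⟨mem_omega.mpr fun _ hb => hb.1, fun x hx => mem_omega.mpr fun b hb =>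
    hb.2 x (mem_omega.mp hx b hb)⟩

theorem isOmega_omega : IsOmega (omega M) :=
  ⟨ind_iff.mp ind_omega, fun a h1 h2 _ hn => mem_omega.mp hn a (ind_iff.mpr ⟨h1, h2⟩)⟩

theorem omega_induction (P : M → Prop) [D (fun v => P (v 0))] (h0 : P emp)
    (hs : ∀ n, n ∈ omega M → P n → P (suc n)) : ∀ n, n ∈ omega M → P n := by
  intro n hn
  have : Ind (sep (omega M) P) := by
    refine ⟨mem_sep.mpr ⟨ind_omega.1, h0⟩, fun x hx => ?_⟩
    obtain ⟨h1, h2⟩ := mem_sep.mp hx
    exact mem_sep.mpr ⟨ind_omega.2 x h1, hs x h1 h2⟩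
  exact (mem_sep.mp (mem_omega.mp hn _ this)).2

theorem suc_ne_emp (n : M) : suc n ≠ emp := by
  intro h
  exact not_mem_emp n (h ▸ mem_suc.mpr (Or.inr rfl))

theorem suc_inj {m n : M} (h : suc m = suc n) : m = n := by
  have h1 : m ∈ n ∨ m = n := mem_suc.mp (h ▸ mem_suc.mpr (Or.inr rfl))
  have h2 : n ∈ m ∨ n = m := mem_suc.mp (h ▸ mem_suc.mpr (Or.inr rfl))
  rcases h1 with h1 | h1
  · rcases h2 with h2 | h2
    · exfalso
      obtain ⟨x, hx, h3⟩ := hZF.out.foundation (upair m n) ⟨m, mem_upair.mpr (Or.inl rfl)⟩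
      rcases mem_upair.mp hx with rfl | rfl
      · exact h3 n h2 (mem_upair.mpr (Or.inr rfl))
      · exact h3 m h1 (mem_upair.mpr (Or.inl rfl))
    · exact h2.symm
  · exact h1

theorem omega_cases {n : M} (hn : n ∈ omega M) : n = emp ∨ ∃ m, m ∈ omega M ∧ n = suc m := by
  refine omega_induction (fun n => n = emp ∨ ∃ m, m ∈ omega M ∧ n = suc m) (Or.inl rfl) ?_ n hn
  intro n hn _
  exact Or.inr ⟨n, hn, rfl⟩

/-! ### the embedding of the natural numbers into the reals -/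

variable {K : RealField M}

variable (K) in
def Gc (Q : M) : Prop := pr emp (0 : El K.R).1 ∈ Q ∧
  ∀ n x, pr n x ∈ Q → pr (suc n) (toF K x + 1).1 ∈ Q

instance D_Gc (s : (ℕ → M) → M) [DT s] : D (fun v => Gc K (s v)) := by
  refine D1 (P := Gc K) ?_ s
  unfold Gc
  infer_instance

variable (K) in
noncomputable def graphNu : M := sep (prod (omega M) K.R) (fun p => ∀ Q, Gc K Q → p ∈ Q)

theorem Gc_prod : Gc K (prod (omega M) K.R) := by
  refine ⟨mem_prod.mpr ⟨emp, ind_omega.1, _, Subtype.property _, rfl⟩, ?_⟩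
  intro n x h
  obtain ⟨m, hm, y, hy, h1⟩ := mem_prod.mp h
  obtain ⟨rfl, rfl⟩ := pr_inj h1
  exact mem_prod.mpr ⟨suc n, ind_omega.2 n hm, _, Subtype.property _, rfl⟩

theorem mem_graphNu {p : M} : p ∈ graphNu K ↔ ∀ Q, Gc K Q → p ∈ Q :=
  mem_sep.trans ⟨fun h => h.2, fun h => ⟨h _ Gc_prod, h⟩⟩

theorem Gc_graphNu : Gc K (graphNu K) :=
  ⟨mem_graphNu.mpr fun _ h => h.1, fun n x hx => mem_graphNu.mpr fun Q hQ =>
    hQ.2 n x (mem_graphNu.mp hx Q hQ)⟩

theorem graphNu_real {n x : M} (h : pr n x ∈ graphNu K) : x ∈ K.R := by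
  obtain ⟨m, hm, y, hy, h1⟩ := mem_prod.mp (mem_graphNu.mp h _ Gc_prod)
  obtain ⟨rfl, rfl⟩ := pr_inj h1
  exact hy

theorem graphNu_unique : ∀ n, n ∈ omega M → ∃! x, pr n x ∈ graphNu K := by
  refine omega_induction (fun n => ∃! x, pr n x ∈ graphNu K) ?_ ?_
  · refine ⟨_, Gc_graphNu.1, fun y hy => ?_⟩
    by_contra hne
    have h1 : Gc K (sep (graphNu K) (fun p => p ≠ pr emp y)) := by
      refine ⟨mem_sep.mpr ⟨Gc_graphNu.1, fun h => hne (pr_inj h).2.symm⟩, ?_⟩
      intro n x hx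
      exact mem_sep.mpr ⟨Gc_graphNu.2 n x (mem_sep.mp hx).1, fun h => suc_ne_emp n (pr_inj h).1⟩
    exact (mem_sep.mp (mem_graphNu.mp hy _ h1)).2 rfl
  · intro n hn hx
    obtain ⟨x, hx, hu⟩ := hx
    refine ⟨_, Gc_graphNu.2 n x hx, fun y hy => ?_⟩
    by_contra hne
    have h1 : Gc K (sep (graphNu K) (fun p => p ≠ pr (suc n) y)) := by
      refine ⟨mem_sep.mpr ⟨Gc_graphNu.1, fun h => suc_ne_emp n (pr_inj h).1.symm⟩, ?_⟩
      intro m z hz
      have hz' := (mem_sep.mp hz).1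
      refine mem_sep.mpr ⟨Gc_graphNu.2 m z hz', fun h => ?_⟩
      obtain ⟨h2, h3⟩ := pr_inj h
      obtain rfl := suc_inj h2
      obtain rfl := hu z hz'
      exact hne h3.symm
    exact (mem_sep.mp (mem_graphNu.mp hy _ h1)).2 rfl

variable (K) in
/-- the real number `n` -/
noncomputable def nu (n : M) : El K.R := toF K (iota (fun x => pr n x ∈ graphNu K))

instance DR_nu (s : (ℕ → M) → M) [DT s] : DR K (fun v => nu K (s v)) := by
  refine DR1 (t := nu K) ?_ s
  unfold nu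
  infer_instance

theorem nu_emp : nu K (emp : M) = 0 := by
  have h := graphNu_unique (K := K) emp ind_omega.1
  rw [nu, iota_eq (P := fun x => pr emp x ∈ graphNu K) Gc_graphNu.1
    fun y hy => h.unique hy Gc_graphNu.1, toF_val]

theorem nu_suc {n : M} (hn : n ∈ omega M) : nu K (suc n) = nu K n + 1 := by
  have h := graphNu_unique (K := K) (suc n) (ind_omega.2 n hn)
  have h1 := iota_spec (graphNu_unique (K := K) n hn)
  have h2 := Gc_graphNu.2 _ _ h1
  rw [nu, iota_eq (P := fun x => pr (suc n) x ∈ graphNu K) h2 fun y hy => h.unique hy h2, toF_val]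
  rfl

theorem nu_nonneg : ∀ n, n ∈ omega M → 0 ≤ nu K n := by
  refine omega_induction (fun n => 0 ≤ nu K n) (by rw [nu_emp]) ?_
  intro n hn h
  rw [nu_suc hn]
  linarith

theorem nu_lt : ∀ n, n ∈ omega M → ∀ m, m ∈ omega M → nu K n < nu K m → nu K n + 1 ≤ nu K m := by
  refine omega_induction (fun n => ∀ m, m ∈ omega M → nu K n < nu K m → nu K n + 1 ≤ nu K m) ?_ ?_
  · intro m hm h
    rw [nu_emp] at h ⊢
    rcases omega_cases hm with rfl | ⟨k, hk, rfl⟩
    · rw [nu_emp] at h; exact absurd h (lt_irrefl _)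
    · rw [nu_suc hk]
      have := nu_nonneg (K := K) k hk
      linarith
  · intro n hn ih m hm h
    rw [nu_suc hn] at h ⊢
    rcases omega_cases hm with rfl | ⟨k, hk, rfl⟩
    · rw [nu_emp] at h
      have := nu_nonneg (K := K) n hn
      linarith
    · rw [nu_suc hk] at h ⊢
      have := ih k hk (by linarith)
      linarith

theorem nu_inj : ∀ n, n ∈ omega M → ∀ m, m ∈ omega M → nu K n = nu K m → n = m := by
  refine omega_induction (fun n => ∀ m, m ∈ omega M → nu K n = nu K m → n = m) ?_ ?_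
  · intro m hm h
    rcases omega_cases hm with rfl | ⟨k, hk, rfl⟩
    · rfl
    · rw [nu_emp, nu_suc hk] at h
      have := nu_nonneg (K := K) k hk
      linarith
  · intro n hn ih m hm h
    rcases omega_cases hm with rfl | ⟨k, hk, rfl⟩
    · rw [nu_emp, nu_suc hn] at h
      have := nu_nonneg (K := K) n hn
      linarith
    · rw [nu_suc hn, nu_suc hk] at h
      rw [ih k hk (by linarith)]

theorem archimedean (a : El K.R) : ∃ n, n ∈ omega M ∧ a < nu K n := by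
  by_contra hcon
  push Not at hcon
  obtain ⟨s, hs⟩ := K.complete (sep K.R (fun x => ∃ n, n ∈ omega M ∧ toF K x = nu K n))
    (fun x hx => (mem_sep.mp hx).1)
    ⟨(nu K (emp : M)).1, mem_sep.mpr ⟨Subtype.property _, emp, ind_omega.1, toF_val _⟩⟩
    ⟨a, fun x hx => by
      obtain ⟨n, hn, h⟩ := (mem_sep.mp hx).2
      rw [toF_val] at h
      rw [h]
      exact hcon n hn⟩
  have h1 : ∀ n, n ∈ omega M → nu K n ≤ s := by
    intro n hn
    refine hs.1 ?_
    exact mem_sep.mpr ⟨Subtype.property _, n, hn, toF_val _⟩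
  have h2 : s ≤ s - 1 := by
    refine hs.2 ?_
    intro x hx
    obtain ⟨n, hn, h⟩ := (mem_sep.mp hx).2
    rw [toF_val] at h
    have := h1 (suc n) (ind_omega.2 n hn)
    rw [nu_suc hn] at this
    rw [h]
    linarith
  linarith

theorem floor_exists {a : El K.R} (ha : 0 ≤ a) : ∃ n, n ∈ omega M ∧ nu K n ≤ a ∧ a < nu K n + 1 := by
  obtain ⟨n, hn, h⟩ := archimedean a
  revert h
  refine omega_induction (fun n => a < nu K n → ∃ n, n ∈ omega M ∧ nu K n ≤ a ∧ a < nu K n + 1)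
    ?_ ?_ n hn
  · intro h
    rw [nu_emp] at h
    exact absurd h (not_lt.mpr ha)
  · intro n hn ih h
    rw [nu_suc hn] at h
    rcases le_or_gt (nu K n) a with h1 | h1
    · exact ⟨n, hn, h1, h⟩
    · exact ih h1

/-! ### parity -/

variable (K) in
def Ev (n : M) : Prop := ∃ k, k ∈ omega M ∧ nu K n = nu K k + nu K k

variable (K) in
def Od (n : M) : Prop := ∃ k, k ∈ omega M ∧ nu K n = nu K k + nu K k + 1

instance D_Ev (s : (ℕ → M) → M) [DT s] : D (fun v => Ev K (s v)) := by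
  refine D1 (P := Ev K) ?_ s
  unfold Ev
  infer_instance

instance D_Od (s : (ℕ → M) → M) [DT s] : D (fun v => Od K (s v)) := by
  refine D1 (P := Od K) ?_ s
  unfold Od
  infer_instance

theorem Ev.suc {n : M} (hn : n ∈ omega M) (h : Ev K n) : Od K (suc n) := by
  obtain ⟨k, hk, h⟩ := h
  exact ⟨k, hk, by rw [nu_suc hn, h]⟩

theorem Od.suc {n : M} (hn : n ∈ omega M) (h : Od K n) : Ev K (suc n) := by
  obtain ⟨k, hk, h⟩ := h
  exact ⟨_, ind_omega.2 k hk, by rw [nu_suc hn, nu_suc hk, h]; ring⟩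

theorem ev_emp : Ev K (emp : M) := ⟨emp, ind_omega.1, by rw [nu_emp]; ring⟩

theorem ev_or_od : ∀ n, n ∈ omega M → Ev K n ∨ Od K n := by
  refine omega_induction (fun n => Ev K n ∨ Od K n) (Or.inl ev_emp) ?_
  rintro n hn (h | h)
  · exact Or.inr (h.suc hn)
  · exact Or.inl (h.suc hn)

theorem dist_of_ne {m n : M} (hm : m ∈ omega M) (hn : n ∈ omega M) (h : m ≠ n) :
    1 ≤ |nu K m - nu K n| := by
  rcases lt_trichotomy (nu K m) (nu K n) with h1 | h1 | h1
  · have := nu_lt m hm n hn h1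
    rw [abs_of_neg (by linarith)]
    linarith
  · exact absurd (nu_inj m hm n hn h1) h
  · have := nu_lt n hn m hm h1
    rw [abs_of_pos (by linarith)]
    linarith

theorem not_ev_od {n : M} (h : Ev K n) (h' : Od K n) : False := by
  obtain ⟨k, hk, h⟩ := h
  obtain ⟨l, hl, h'⟩ := h'
  rcases lt_trichotomy (nu K k) (nu K l) with h1 | h1 | h1
  · linarith
  · rw [h1] at h; linarith
  · have := nu_lt l hl k hk h1
    linarith

theorem ev_dist {m n : M} (hm : m ∈ omega M) (hn : n ∈ omega M) (h : Ev K m) (h' : Ev K n)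
    (hd : |nu K m - nu K n| < 2) : m = n := by
  obtain ⟨k, hk, h⟩ := h
  obtain ⟨l, hl, h'⟩ := h'
  refine nu_inj (K := K) m hm n hn ?_
  rw [abs_lt] at hd
  rcases lt_trichotomy (nu K k) (nu K l) with h1 | h1 | h1
  · have := nu_lt k hk l hl h1
    linarith [hd.1]
  · rw [h, h', h1]
  · have := nu_lt l hl k hk h1
    linarith [hd.2]

theorem od_dist {m n : M} (hm : m ∈ omega M) (hn : n ∈ omega M) (h : Od K m) (h' : Od K n)
    (hd : |nu K m - nu K n| < 2) : m = n := by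
  obtain ⟨k, hk, h⟩ := h
  obtain ⟨l, hl, h'⟩ := h'
  refine nu_inj (K := K) m hm n hn ?_
  rw [abs_lt] at hd
  rcases lt_trichotomy (nu K k) (nu K l) with h1 | h1 | h1
  · have := nu_lt k hk l hl h1
    linarith [hd.1]
  · rw [h, h', h1]
  · have := nu_lt l hl k hk h1
    linarith [hd.2]

end Pool.Agent.Lib.MP_f5c99b_lc

/-! In a strongly zero-dimensional space every continuous real function is bounded by a continuous
function with values in the natural numbers: one clopen set is enough. -/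

namespace Pool.Agent.Lib.MP_f5c99b_lc

universe u

variable {M : Type u} [Membership M M] [hZF : Fact (IsModelOfZF M)] {K : RealField M}

variable (K) in
/-- distance of `max r 0` to the even natural numbers -/
noncomputable def wave (r : El K.R) : El K.R :=
  toF K (iota (fun t => t ∈ K.R ∧ (∃ n, n ∈ omega M ∧ Ev K n ∧ toF K t = |max r 0 - nu K n|) ∧
    ∀ n, n ∈ omega M → Ev K n → toF K t ≤ |max r 0 - nu K n|))

instance DR_wave (s : (ℕ → M) → El K.R) [hs : DR K s] : DR K (fun v => wave K (s v)) := by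
  have h1 := hs.shift 1
  have h2 := hs.shift 2
  unfold wave
  infer_instance

theorem near_even (r : El K.R) (hr : 0 ≤ r) : ∃ n, n ∈ omega M ∧ Ev K n ∧ |r - nu K n| ≤ 1 := by
  obtain ⟨n, hn, h1, h2⟩ := floor_exists hr
  rcases ev_or_od (K := K) n hn with h | h
  · refine ⟨n, hn, h, ?_⟩
    rw [abs_of_nonneg (by linarith)]
    linarith
  · refine ⟨suc n, ind_omega.2 n hn, h.suc hn, ?_⟩
    rw [nu_suc hn, abs_of_nonpos (by linarith)]
    linarith

theorem wave_spec (r : El K.R) : (∃ n, n ∈ omega M ∧ Ev K n ∧ wave K r = |max r 0 - nu K n|) ∧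
    ∀ n, n ∈ omega M → Ev K n → wave K r ≤ |max r 0 - nu K n| := by
  have hex : ∃! t, t ∈ K.R ∧ (∃ n, n ∈ omega M ∧ Ev K n ∧ toF K t = |max r 0 - nu K n|) ∧
    ∀ n, n ∈ omega M → Ev K n → toF K t ≤ |max r 0 - nu K n| := by
    obtain ⟨n, hn, h1, h2⟩ := near_even (max r 0) (le_max_right _ _)
    refine ⟨|max r 0 - nu K n|.1, ⟨Subtype.property _, ⟨n, hn, h1, toF_val _⟩, ?_⟩, ?_⟩
    · intro m hm h3
      rw [toF_val]
      by_cases hmn : m = n
      · rw [hmn]
      · have h4 : 2 ≤ |nu K m - nu K n| := by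
          by_contra hlt
          exact hmn (ev_dist hm hn h3 h1 (not_le.mp hlt))
        have h5 : |nu K m - nu K n| ≤ |max r 0 - nu K m| + |max r 0 - nu K n| := by
          have := abs_sub_le (nu K m) (max r 0) (nu K n)
          rwa [abs_sub_comm (nu K m) (max r 0)] at this
        linarith
    · rintro t ⟨ht, ⟨m, hm, h3, h4⟩, h5⟩
      have h6 : toF K t = |max r 0 - nu K n| := by
        refine le_antisymm (h5 n hn h1) ?_
        by_cases hmn : m = n
        · rw [h4, hmn]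
        · have h4' : 2 ≤ |nu K m - nu K n| := by
            by_contra hlt
            exact hmn (ev_dist hm hn h3 h1 (not_le.mp hlt))
          have h5 : |nu K m - nu K n| ≤ |max r 0 - nu K m| + |max r 0 - nu K n| := by
            have := abs_sub_le (nu K m) (max r 0) (nu K n)
            rwa [abs_sub_comm (nu K m) (max r 0)] at this
          linarith
      rw [← h6, val_toF ht]
  exact (iota_spec hex).2

theorem wave_le (r s : El K.R) : wave K r - wave K s ≤ |r - s| := by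
  obtain ⟨n, hn, h1, h2⟩ := (wave_spec s).1
  have h3 := (wave_spec r).2 n hn h1
  have h4 : |max r 0 - max s 0| ≤ |r - s| := by
    have := abs_max_sub_max_le_max r 0 s 0
    simpa using this
  have h5 := abs_sub_le (max r 0) (max s 0) (nu K n)
  linarith

theorem wave_lip (r s : El K.R) : |wave K r - wave K s| ≤ |r - s| := by
  rw [abs_le]
  have h1 := wave_le r s
  have h2 := wave_le s r
  rw [abs_sub_comm] at h2
  constructor <;> linarith

theorem wave_even {r : El K.R} {n : M} (hn : n ∈ omega M) (h : Ev K n) (e : max r 0 = nu K n) :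
    wave K r ≤ 0 := by
  have := (wave_spec r).2 n hn h
  rwa [e, sub_self, abs_zero] at this

theorem wave_odd {r : El K.R} {n : M} (hn : n ∈ omega M) (h : Od K n) (e : max r 0 = nu K n) :
    1 ≤ wave K r := by
  obtain ⟨m, hm, h1, h2⟩ := (wave_spec r).1
  rw [h2, e]
  refine dist_of_ne hn hm ?_
  rintro rfl
  exact not_ev_od h1 h

/-- the set of continuous functions from `X` to the discrete space of natural numbers -/
noncomputable def contN (X T : M) : M :=
  sep (funs X (omega M)) (fun h => ∀ n, n ∈ omega M → sep X (fun x => ap h x = n) ∈ T)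

theorem mem_contN {X T h : M} : h ∈ contN X T ↔ IsFun h X (omega M) ∧
    ∀ n, n ∈ omega M → sep X (fun x => ap h x = n) ∈ T := by
  rw [contN, mem_sep, mem_funs]

/-- fibre of a function -/
noncomputable def fib (X h n : M) : M := sep X (fun x => ap h x = n)

theorem mem_fib {X h n x : M} : x ∈ fib X h n ↔ x ∈ X ∧ ap h x = n := mem_sep

theorem lemma_A {X T S : M} (hT : IsTopology X T) (hS : IsUsual K S)
    (hZ : IsStronglyZeroDim K X T) {t : M → El K.R} [ht : DR K (fun v => t (v 0))]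
    (h : Cts X T t) : ∃ g, g ∈ contN X T ∧ ∀ x, x ∈ X → t x < nu K (ap g x) + 1 := by
  have hw : Cts X T (fun x => wave K (t x)) :=
    h.lip hT 1 one_pos fun x y _ _ => by rw [one_mul]; exact wave_lip _ _
  obtain ⟨C, hC, hC', hA, hB⟩ := szd hT hS hZ hw
  have ht1 : DR K (fun v => t (v 1)) := DR1 ht _
  let a : M → M := fun x => iota (fun n => n ∈ omega M ∧ ((x ∈ C ∧ Ev K n) ∨ (x ∉ C ∧ Od K n)) ∧
    |max (t x) 0 - nu K n| < 1)
  have hDa : DT (fun v => a (v 0)) := by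
    change DT (fun v : ℕ → M => iota (fun n => n ∈ omega M ∧
      ((v 0 ∈ C ∧ Ev K n) ∨ (v 0 ∉ C ∧ Od K n)) ∧ |max (t (v 0)) 0 - nu K n| < 1))
    infer_instance
  have huniq : ∀ x m n, m ∈ omega M → n ∈ omega M → ((x ∈ C ∧ Ev K m) ∨ (x ∉ C ∧ Od K m)) →
      ((x ∈ C ∧ Ev K n) ∨ (x ∉ C ∧ Od K n)) → |max (t x) 0 - nu K m| < 1 →
      |max (t x) 0 - nu K n| < 1 → m = n := by
    intro x m n hm hn h1 h2 h3 h4
    have h5 : |nu K m - nu K n| < 2 := by
      have := abs_sub_le (nu K m) (max (t x) 0) (nu K n)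
      rw [abs_sub_comm (nu K m) (max (t x) 0)] at this
      linarith
    rcases h1 with ⟨hx, h1⟩ | ⟨hx, h1⟩
    · rcases h2 with ⟨_, h2⟩ | ⟨hx', _⟩
      · exact ev_dist hm hn h1 h2 h5
      · exact absurd hx hx'
    · rcases h2 with ⟨hx', _⟩ | ⟨_, h2⟩
      · exact absurd hx' hx
      · exact od_dist hm hn h1 h2 h5
  have hspec : ∀ x, x ∈ X → a x ∈ omega M ∧ ((x ∈ C ∧ Ev K (a x)) ∨ (x ∉ C ∧ Od K (a x))) ∧
      |max (t x) 0 - nu K (a x)| < 1 := by
    intro x hx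
    refine iota_spec (P := fun n => n ∈ omega M ∧ ((x ∈ C ∧ Ev K n) ∨ (x ∉ C ∧ Od K n)) ∧
      |max (t x) 0 - nu K n| < 1) ?_
    have hex : ∃ n, n ∈ omega M ∧ ((x ∈ C ∧ Ev K n) ∨ (x ∉ C ∧ Od K n)) ∧
      |max (t x) 0 - nu K n| < 1 := by
      obtain ⟨n, hn, h1, h2⟩ := floor_exists (le_max_right (t x) 0)
      by_cases hxC : x ∈ C
      · rcases ev_or_od (K := K) n hn with h3 | h3
        · refine ⟨n, hn, Or.inl ⟨hxC, h3⟩, ?_⟩
          rw [abs_of_nonneg (by linarith)]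
          linarith
        · refine ⟨suc n, ind_omega.2 n hn, Or.inl ⟨hxC, h3.suc hn⟩, ?_⟩
          have h4 : nu K n < max (t x) 0 := by
            refine lt_of_le_of_ne h1 fun he => ?_
            exact hB x hx (wave_odd hn h3 he.symm) hxC
          rw [nu_suc hn, abs_of_neg (by linarith)]
          linarith
      · rcases ev_or_od (K := K) n hn with h3 | h3
        · refine ⟨suc n, ind_omega.2 n hn, Or.inr ⟨hxC, h3.suc hn⟩, ?_⟩
          have h4 : nu K n < max (t x) 0 := by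
            refine lt_of_le_of_ne h1 fun he => ?_
            exact hxC (hA x hx (wave_even hn h3 he.symm))
          rw [nu_suc hn, abs_of_neg (by linarith)]
          linarith
        · refine ⟨n, hn, Or.inr ⟨hxC, h3⟩, ?_⟩
          rw [abs_of_nonneg (by linarith)]
          linarith
    obtain ⟨n, hn, h1, h2⟩ := hex
    exact ⟨n, ⟨hn, h1, h2⟩, fun m hm => huniq x m n hm.1 hn hm.2.1 h1 hm.2.2 h2⟩
  have hm : ∀ x, x ∈ X → a x ∈ omega M := fun x hx => (hspec x hx).1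
  refine ⟨lam X a, mem_contN.mpr ⟨isFun_lam hm, fun n hn => ?_⟩, fun x hx => ?_⟩
  · refine hT.of_nbhd fun x hx => ?_
    obtain ⟨hxX, hxn⟩ := mem_sep.mp hx
    rw [ap_lam hm hxX] at hxn
    obtain ⟨h1, h2, h3⟩ := hspec x hxX
    rw [hxn] at h2 h3
    obtain ⟨U, hU, hxU, hU2⟩ := h x hxX (1 - |max (t x) 0 - nu K n|) (by linarith)
    have key : ∀ y, y ∈ U → ((y ∈ C ∧ Ev K n) ∨ (y ∉ C ∧ Od K n)) →
        y ∈ sep X (fun x => ap (lam X a) x = n) := by
      intro y hy hyC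
      have hyX := hT.1 U hU y hy
      refine mem_sep.mpr ⟨hyX, ?_⟩
      rw [ap_lam hm hyX]
      obtain ⟨h1', h2', h3'⟩ := hspec y hyX
      refine huniq y _ _ h1' hn h2' hyC h3' ?_
      have h4 := hU2 y hy
      have h5 : |max (t y) 0 - max (t x) 0| ≤ |t y - t x| := by
        have := abs_max_sub_max_le_max (t y) 0 (t x) 0
        simpa using this
      have h6 := abs_sub_le (max (t y) 0) (max (t x) 0) (nu K n)
      linarith
    rcases h2 with ⟨hxC, h2⟩ | ⟨hxC, h2⟩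
    · refine ⟨inter U C, hT.inter hU hC, mem_inter.mpr ⟨hxU, hxC⟩, fun y hy => ?_⟩
      obtain ⟨hy1, hy2⟩ := mem_inter.mp hy
      exact key y hy1 (Or.inl ⟨hy2, h2⟩)
    · refine ⟨inter U (diff X C), hT.inter hU hC', mem_inter.mpr ⟨hxU, mem_diff.mpr ⟨hxX, hxC⟩⟩,
        fun y hy => ?_⟩
      obtain ⟨hy1, hy2⟩ := mem_inter.mp hy
      exact key y hy1 (Or.inr ⟨(mem_diff.mp hy2).2, h2⟩)
  · rw [ap_lam hm hx]
    obtain ⟨h1, h2, h3⟩ := hspec x hx
    have h4 := (abs_lt.mp h3).2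
    have h5 := le_max_left (t x) 0
    linarith

end Pool.Agent.Lib.MP_f5c99b_lc

/-! Strongly zero-dimensional realcompact spaces are `ℕ`-compact, in every model of `ZF`. -/

namespace Pool.Agent.Lib.MP_f5c99b_lc

universe u

variable {M : Type u} [Membership M M] [hZF : Fact (IsModelOfZF M)] {K : RealField M}

/-! ### open rays -/

variable (K) in
noncomputable def lo (a : El K.R) : M := sep K.R (fun x => toF K x < a)

variable (K) in
noncomputable def hi (a : El K.R) : M := sep K.R (fun x => a < toF K x)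

theorem mem_lo {a : El K.R} {x : M} : x ∈ lo K a ↔ x ∈ K.R ∧ toF K x < a := mem_sep
theorem mem_hi {a : El K.R} {x : M} : x ∈ hi K a ↔ x ∈ K.R ∧ a < toF K x := mem_sep

theorem lo_mem {S : M} (hS : IsUsual K S) (a : El K.R) : lo K a ∈ S := by
  refine hS.2.1 _ ⟨a, Or.inl fun x => ?_⟩
  rw [mem_lo]
  constructor
  · rintro ⟨h1, h2⟩
    exact ⟨toF K x, val_toF h1, h2⟩
  · rintro ⟨y, rfl, h⟩
    rw [toF_val]
    exact ⟨y.2, h⟩

theorem hi_mem {S : M} (hS : IsUsual K S) (a : El K.R) : hi K a ∈ S := by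
  refine hS.2.1 _ ⟨a, Or.inr fun x => ?_⟩
  rw [mem_hi]
  constructor
  · rintro ⟨h1, h2⟩
    exact ⟨toF K x, val_toF h1, h2⟩
  · rintro ⟨y, rfl, h⟩
    rw [toF_val]
    exact ⟨y.2, h⟩

theorem usual_rays {V : M} (h : ∃ a : El K.R, (∀ x : M, x ∈ V ↔ ∃ y : El K.R, y.1 = x ∧ y < a) ∨
    (∀ x : M, x ∈ V ↔ ∃ y : El K.R, y.1 = x ∧ a < y)) : ∃ a, V = lo K a ∨ V = hi K a := by
  obtain ⟨a, h | h⟩ := h
  · refine ⟨a, Or.inl (ext fun x => (h x).trans ?_)⟩
    rw [mem_lo]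
    constructor
    · rintro ⟨y, rfl, h⟩
      rw [toF_val]
      exact ⟨y.2, h⟩
    · rintro ⟨h1, h2⟩
      exact ⟨toF K x, val_toF h1, h2⟩
  · refine ⟨a, Or.inr (ext fun x => (h x).trans ?_)⟩
    rw [mem_hi]
    constructor
    · rintro ⟨y, rfl, h⟩
      rw [toF_val]
      exact ⟨y.2, h⟩
    · rintro ⟨h1, h2⟩
      exact ⟨toF K x, val_toF h1, h2⟩

/-- neighbourhoods in a power of the real line -/
theorem real_nbhd {J S P Q : M} (hP : IsPower J K.R S P Q) (hS : IsUsual K S) (z : M)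
    (N : M → Prop) [hN : D (fun v => N (v 0))] (h1 : N P) (h2 : ∀ U V, N U → N V → N (inter U V))
    (h3 : ∀ U V, N U → (∀ x, x ∈ U → x ∈ V) → (∀ x, x ∈ V → x ∈ P) → N V)
    (h4 : ∀ j, j ∈ J → ∀ a, ap z j ∈ lo K a → N (cyl P j (lo K a)))
    (h5 : ∀ j, j ∈ J → ∀ a, ap z j ∈ hi K a → N (cyl P j (hi K a))) :
    ∀ U, U ∈ Q → z ∈ U → N U := by
  refine hP.nbhd hS z N h1 h2 h3 ?_
  intro j hj V hV hz
  obtain ⟨a, rfl | rfl⟩ := usual_rays hV
  · exact h4 j hj a hz
  · exact h5 j hj a hz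

/-- neighbourhoods in a power of a discrete space -/
theorem disc_nbhd {J w P Q : M} (hP : IsPower J w (pow w) P Q) (z : M) (hz : z ∈ P)
    (N : M → Prop) [hN : D (fun v => N (v 0))] (h1 : N P) (h2 : ∀ U V, N U → N V → N (inter U V))
    (h3 : ∀ U V, N U → (∀ x, x ∈ U → x ∈ V) → (∀ x, x ∈ V → x ∈ P) → N V)
    (h4 : ∀ j, j ∈ J → N (sep P (fun g => ap g j = ap z j))) : ∀ U, U ∈ Q → z ∈ U → N U := by
  refine hP.2.nbhd z N h1 h2 h3 ?_
  rintro U ⟨j, V, hj, hV, hU⟩ hzU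
  have hfun : ∀ g, g ∈ P → IsFun g J w := fun g hg => (hP.1 g).mp hg
  refine h3 _ U (h4 j hj) ?_ ?_
  · intro g hg
    obtain ⟨hgP, hg⟩ := mem_sep.mp hg
    obtain ⟨_, y, hy, hzy⟩ := (hU z).mp hzU
    obtain ⟨_, rfl⟩ := (hfun z hz).app.mp hzy
    refine (hU g).mpr ⟨hgP, ap g j, ?_, (hfun g hgP).mem hj⟩
    rw [hg]; exact hy
  · intro g hg
    exact ((hU g).mp hg).1

/-! ### clopen sets and characteristic functions -/

def Clo (X T C : M) : Prop := C ∈ T ∧ diff X C ∈ T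

instance D_Clo (r s t : (ℕ → M) → M) [DT r] [DT s] [DT t] :
    D (fun v => Clo (r v) (s v) (t v)) := by
  unfold Clo
  infer_instance

theorem Clo.sub {X T C : M} (hT : IsTopology X T) (h : Clo X T C) {x : M} (hx : x ∈ C) : x ∈ X :=
  hT.1 C h.1 x hx

theorem Clo.diff {X T C : M} (hT : IsTopology X T) (h : Clo X T C) : Clo X T (diff X C) := by
  refine ⟨h.2, ?_⟩
  have : Pool.Agent.Lib.MP_f5c99b_lc.diff X (Pool.Agent.Lib.MP_f5c99b_lc.diff X C) = C := by
    refine ext fun x => ?_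
    rw [mem_diff, mem_diff]
    have := h.sub hT (x := x)
    tauto
  rw [this]
  exact h.1

theorem Clo.inter {X T C C' : M} (hT : IsTopology X T) (h : Clo X T C) (h' : Clo X T C') :
    Clo X T (inter C C') := by
  refine ⟨hT.inter h.1 h'.1, hT.of_nbhd fun x hx => ?_⟩
  obtain ⟨hxX, hx⟩ := mem_diff.mp hx
  rw [mem_inter, not_and_or] at hx
  rcases hx with hx | hx
  · refine ⟨Pool.Agent.Lib.MP_f5c99b_lc.diff X C, h.2, mem_diff.mpr ⟨hxX, hx⟩, fun y hy => ?_⟩
    obtain ⟨h1, h2⟩ := mem_diff.mp hy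
    exact mem_diff.mpr ⟨h1, fun h => h2 (mem_inter.mp h).1⟩
  · refine ⟨Pool.Agent.Lib.MP_f5c99b_lc.diff X C', h'.2, mem_diff.mpr ⟨hxX, hx⟩, fun y hy => ?_⟩
    obtain ⟨h1, h2⟩ := mem_diff.mp hy
    exact mem_diff.mpr ⟨h1, fun h => h2 (mem_inter.mp h).2⟩

theorem Clo.univ {X T : M} (hT : IsTopology X T) : Clo X T X := by
  refine ⟨hT.2.1, hT.of_nbhd fun x hx => ?_⟩
  exact absurd (mem_diff.mp hx).1 (mem_diff.mp hx).2

theorem Clo.fib {X T g n : M} (hT : IsTopology X T) (hg : g ∈ contN X T) (hn : n ∈ omega M) :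
    Clo X T (fib X g n) := by
  obtain ⟨h1, h2⟩ := mem_contN.mp hg
  refine ⟨h2 n hn, hT.of_nbhd fun x hx => ?_⟩
  obtain ⟨hxX, hx⟩ := mem_diff.mp hx
  refine ⟨_, h2 (ap g x) (h1.ap_mem hxX), mem_sep.mpr ⟨hxX, rfl⟩, fun y hy => ?_⟩
  obtain ⟨hyX, hy⟩ := mem_sep.mp hy
  refine mem_diff.mpr ⟨hyX, fun h => hx ?_⟩
  rw [mem_fib] at h ⊢
  exact ⟨hxX, by rw [← hy, h.2]⟩

noncomputable def chiV (C x : M) : M :=
  iota (fun n => (x ∈ C ∧ n = suc emp) ∨ (x ∉ C ∧ n = emp))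

instance DT_chiV (s t : (ℕ → M) → M) [DT s] [DT t] : DT (fun v => chiV (s v) (t v)) := by
  refine DT2 (f := chiV) ?_ s t
  unfold chiV
  infer_instance

theorem chiV_in {C x : M} (h : x ∈ C) : chiV C x = suc emp :=
  iota_eq (P := fun n => (x ∈ C ∧ n = suc emp) ∨ (x ∉ C ∧ n = emp)) (Or.inl ⟨h, rfl⟩)
    fun y hy => by tauto

theorem chiV_out {C x : M} (h : x ∉ C) : chiV C x = emp :=
  iota_eq (P := fun n => (x ∈ C ∧ n = suc emp) ∨ (x ∉ C ∧ n = emp)) (Or.inr ⟨h, rfl⟩)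
    fun y hy => by tauto

noncomputable def chi (X C : M) : M := lam X (fun x => chiV C x)

instance DT_chi (s t : (ℕ → M) → M) [DT s] [DT t] : DT (fun v => chi (s v) (t v)) := by
  refine DT2 (f := chi) ?_ s t
  unfold chi
  infer_instance

theorem chiV_mem {C x : M} : chiV C x ∈ omega M := by
  by_cases h : x ∈ C
  · rw [chiV_in h]; exact ind_omega.2 _ ind_omega.1
  · rw [chiV_out h]; exact ind_omega.1

theorem isFun_chi {X C : M} : IsFun (chi X C) X (omega M) := isFun_lam fun _ _ => chiV_mem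

theorem ap_chi {X C x : M} (hx : x ∈ X) : ap (chi X C) x = chiV C x :=
  ap_lam (b := omega M) (fun _ _ => chiV_mem) hx

theorem ap_chi_iff {X C x : M} (hx : x ∈ X) : ap (chi X C) x = suc emp ↔ x ∈ C := by
  rw [ap_chi hx]
  constructor
  · intro h
    by_contra hC
    rw [chiV_out hC] at h
    exact suc_ne_emp _ h.symm
  · exact chiV_in

theorem chi_mem {X T C : M} (hT : IsTopology X T) (h : Clo X T C) : chi X C ∈ contN X T := by
  refine mem_contN.mpr ⟨isFun_chi, fun n hn => hT.of_nbhd fun x hx => ?_⟩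
  obtain ⟨hxX, hx⟩ := mem_sep.mp hx
  by_cases hC : x ∈ C
  · refine ⟨C, h.1, hC, fun y hy => mem_sep.mpr ⟨h.sub hT hy, ?_⟩⟩
    rw [← hx, ap_chi hxX, ap_chi (h.sub hT hy), chiV_in hC, chiV_in hy]
  · refine ⟨_, h.2, mem_diff.mpr ⟨hxX, hC⟩, fun y hy => ?_⟩
    obtain ⟨hyX, hy⟩ := mem_diff.mp hy
    refine mem_sep.mpr ⟨hyX, ?_⟩
    rw [← hx, ap_chi hxX, ap_chi hyX, chiV_out hC, chiV_out hy]

end Pool.Agent.Lib.MP_f5c99b_lc

/-! Limits along an ultrafilter of clopen sets. -/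

namespace Pool.Agent.Lib.MP_f5c99b_lc

universe u

variable {M : Type u} [Membership M M] [hZF : Fact (IsModelOfZF M)] {K : RealField M}

/-- the clopen set `C` belongs to the ultrafilter given by `p` -/
def Uf (X T p C : M) : Prop := Clo X T C ∧ ap p (chi X C) = suc emp

instance D_Uf (r s t q : (ℕ → M) → M) [DT r] [DT s] [DT t] [DT q] :
    D (fun v => Uf (r v) (s v) (t v) (q v)) := by
  unfold Uf
  infer_instance

/-- `p` is finitely (at most three conditions) realised in `X` -/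
def Real3 (X T p : M) : Prop := ∀ h₁ h₂ h₃, h₁ ∈ contN X T → h₂ ∈ contN X T → h₃ ∈ contN X T →
  ∃ x, x ∈ X ∧ ap h₁ x = ap p h₁ ∧ ap h₂ x = ap p h₂ ∧ ap h₃ x = ap p h₃

section

variable {X T p : M}

theorem Uf.inter (hT : IsTopology X T) (hp : Real3 X T p) {C C' : M} (h : Uf X T p C)
    (h' : Uf X T p C') : Uf X T p (inter C C') := by
  refine ⟨h.1.inter hT h'.1, ?_⟩
  obtain ⟨x, hx, h1, h2, h3⟩ := hp _ _ _ (chi_mem hT h.1) (chi_mem hT h'.1)
    (chi_mem hT (h.1.inter hT h'.1))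
  rw [h.2, ap_chi_iff hx] at h1
  rw [h'.2, ap_chi_iff hx] at h2
  rw [← h3, ap_chi_iff hx]
  exact mem_inter.mpr ⟨h1, h2⟩

theorem Uf.nonempty (hT : IsTopology X T) (hp : Real3 X T p) {C : M} (h : Uf X T p C) :
    ∃ x, x ∈ X ∧ x ∈ C := by
  obtain ⟨x, hx, h1, h2, h3⟩ := hp _ _ _ (chi_mem hT h.1) (chi_mem hT h.1) (chi_mem hT h.1)
  rw [h.2, ap_chi_iff hx] at h1
  exact ⟨x, hx, h1⟩

theorem uf_or (hT : IsTopology X T) (hp : Real3 X T p) {C : M} (h : Clo X T C) :
    Uf X T p C ∨ Uf X T p (diff X C) := by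
  obtain ⟨x, hx, h1, h2, h3⟩ := hp _ _ _ (chi_mem hT h) (chi_mem hT (h.diff hT)) (chi_mem hT h)
  by_cases hC : x ∈ C
  · left
    refine ⟨h, ?_⟩
    rw [← h1, ap_chi_iff hx]
    exact hC
  · right
    refine ⟨h.diff hT, ?_⟩
    rw [← h2, ap_chi_iff hx]
    exact mem_diff.mpr ⟨hx, hC⟩

theorem uf_univ (hT : IsTopology X T) (hp : Real3 X T p) : Uf X T p X := by
  have h := Clo.univ hT
  obtain ⟨x, hx, h1, h2, h3⟩ := hp _ _ _ (chi_mem hT h) (chi_mem hT h) (chi_mem hT h)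
  refine ⟨h, ?_⟩
  rw [← h1, ap_chi_iff hx]
  exact hx

theorem uf_fib (hT : IsTopology X T) (hp : Real3 X T p) (hpf : IsFun p (contN X T) (omega M))
    {g : M} (hg : g ∈ contN X T) : Uf X T p (fib X g (ap p g)) := by
  have h := Clo.fib hT hg (hpf.ap_mem hg)
  refine ⟨h, ?_⟩
  obtain ⟨x, hx, h1, h2, h3⟩ := hp _ _ _ (chi_mem hT h) hg hg
  rw [← h1, ap_chi_iff hx, mem_fib]
  exact ⟨hx, h2⟩

variable {S : M} (hT : IsTopology X T) (hS : IsUsual K S) (hZ : IsStronglyZeroDim K X T)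
  (hp : Real3 X T p) (hpf : IsFun p (contN X T) (omega M))

include hT hS hZ hp hpf

theorem bdd_above {t : M → El K.R} [ht : DR K (fun v => t (v 0))] (h : Cts X T t) :
    ∃ b C, Uf X T p C ∧ ∀ x, x ∈ C → t x < b := by
  obtain ⟨g, hg, h1⟩ := lemma_A hT hS hZ h
  refine ⟨nu K (ap p g) + 1, _, uf_fib hT hp hpf hg, fun x hx => ?_⟩
  obtain ⟨hxX, hx⟩ := mem_fib.mp hx
  rw [← hx]
  exact h1 x hxX

theorem limit_exists {t : M → El K.R} [ht : DR K (fun v => t (v 0))] (h : Cts X T t) :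
    ∃ l : El K.R, ∀ ε, 0 < ε → ∃ C, Uf X T p C ∧ ∀ x, x ∈ C → |t x - l| < ε := by
  obtain ⟨b, C₁, hC₁, hb⟩ := bdd_above hT hS hZ hp hpf h
  have hneg : Cts X T (fun x => - t x) := h.lip hT 1 one_pos fun x y _ _ => by
    rw [one_mul, abs_sub_comm]
    apply le_of_eq
    congr 1
    ring
  obtain ⟨b', C₂, hC₂, hb'⟩ := bdd_above hT hS hZ hp hpf hneg
  have ht1 : DR K (fun v => t (v 1)) := DR1 ht _
  have hmA : ∀ {a : M}, a ∈ sep K.R (fun a => ∃ C, Uf X T p C ∧ ∀ x, x ∈ C → toF K a < t x) ↔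
      a ∈ K.R ∧ ∃ C, Uf X T p C ∧ ∀ x, x ∈ C → toF K a < t x := by
    intro a
    exact mem_sep
  obtain ⟨l, hl⟩ := K.complete (sep K.R (fun a => ∃ C, Uf X T p C ∧ ∀ x, x ∈ C → toF K a < t x))
    (fun x hx => (hmA.mp hx).1)
    ⟨(-b').1, hmA.mpr ⟨Subtype.property _, C₂, hC₂, fun x hx => by
      rw [toF_val]
      have := hb' x hx
      linarith⟩⟩
    ⟨b, fun a ha => by
      obtain ⟨_, C, hC, h1⟩ := hmA.mp ha
      obtain ⟨x, hx, hxC⟩ := (hC.inter hT hp hC₁).nonempty hT hp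
      obtain ⟨h2, h3⟩ := mem_inter.mp hxC
      have h4 := h1 x h2
      rw [toF_val] at h4
      exact (h4.trans (hb x h3)).le⟩
  refine ⟨l, fun ε hε => ?_⟩
  -- lower part
  have hlow : ∃ C, Uf X T p C ∧ ∀ x, x ∈ C → l - ε < t x := by
    by_contra hcon
    have : l ≤ l - ε := by
      refine hl.2 fun a ha => ?_
      obtain ⟨_, C, hC, h1⟩ := hmA.mp ha
      rw [toF_val] at h1
      by_contra hlt
      exact hcon ⟨C, hC, fun x hx => (not_le.mp hlt).trans (h1 x hx)⟩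
    linarith
  obtain ⟨C, hC, h1⟩ := hlow
  -- upper part
  have hs : Cts X T (fun x => (t x - (l + ε / 2)) * (2 / ε)) := by
    refine h.lip hT (2 / ε) (by positivity) fun x y _ _ => ?_
    rw [← sub_mul, abs_mul, abs_of_pos (show 0 < 2 / ε by positivity), mul_comm]
    apply le_of_eq
    congr 2
    ring
  have hDs : DR K (fun v => (t (v 0) - (l + ε / 2)) * (2 / ε)) := inferInstance
  obtain ⟨C', hC', hC'', h2, h3⟩ := szd hT hS hZ hs
  have hclo : Clo X T C' := ⟨hC', hC''⟩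
  rcases uf_or hT hp hclo with hU | hU
  · refine ⟨_, hC.inter hT hp hU, fun x hx => ?_⟩
    obtain ⟨hx1, hx2⟩ := mem_inter.mp hx
    have hxX := hclo.sub hT hx2
    have h4 := h1 x hx1
    have h5 : t x < l + ε := by
      by_contra hlt
      refine h3 x hxX ?_ hx2
      have h6 : ε / 2 ≤ t x - (l + ε / 2) := by
        have := not_lt.mp hlt
        linarith
      calc (1 : El K.R) = ε / 2 * (2 / ε) := by field_simp
        _ ≤ _ := mul_le_mul_of_nonneg_right h6 (by positivity)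
    rw [abs_lt]
    constructor <;> linarith
  · exfalso
    have h4 : l + ε / 2 ≤ l := by
      refine hl.1 (hmA.mpr ⟨Subtype.property _, _, hU, fun x hx => ?_⟩)
      rw [toF_val]
      obtain ⟨hxX, hx⟩ := mem_diff.mp hx
      by_contra hlt
      refine hx (h2 x hxX ?_)
      exact mul_nonpos_of_nonpos_of_nonneg (by linarith [not_lt.mp hlt]) (by positivity)
    linarith

omit hS hZ hpf in
theorem limit_unique {t : M → El K.R} {l l' : El K.R}
    (h : ∀ ε, 0 < ε → ∃ C, Uf X T p C ∧ ∀ x, x ∈ C → |t x - l| < ε)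
    (h' : ∀ ε, 0 < ε → ∃ C, Uf X T p C ∧ ∀ x, x ∈ C → |t x - l'| < ε) : l = l' := by
  by_contra hne
  have hpos : 0 < |l - l'| := abs_pos.mpr (sub_ne_zero.mpr hne)
  obtain ⟨C, hC, h1⟩ := h (|l - l'| / 2) (by linarith)
  obtain ⟨C', hC', h1'⟩ := h' (|l - l'| / 2) (by linarith)
  obtain ⟨x, _, hx⟩ := (hC.inter hT hp hC').nonempty hT hp
  obtain ⟨h2, h3⟩ := mem_inter.mp hx
  have h4 := abs_sub_le l (t x) l'
  have h5 := h1 x h2
  have h6 := h1' x h3
  rw [abs_sub_comm] at h5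
  linarith

end

end Pool.Agent.Lib.MP_f5c99b_lc

/-! Strongly zero-dimensional realcompact spaces are `ℕ`-compact, in every model of `ZF`. -/

namespace Pool.Agent.Lib.MP_f5c99b_lc

universe u

variable {M : Type u} [Membership M M] [hZF : Fact (IsModelOfZF M)] {K : RealField M}

section

variable {X T S J P Q i : M}

variable (K) in
/-- the `j`-th coordinate of the embedding `i` -/
noncomputable def co (i j x : M) : El K.R := toF K (ap (ap i x) j)

instance DR_co (r s t : (ℕ → M) → M) [DT r] [DT s] [DT t] :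
    DR K (fun v => co K (r v) (s v) (t v)) := by
  unfold co
  infer_instance

variable (hT : IsTopology X T) (hS : IsUsual K S) (hZ : IsStronglyZeroDim K X T)
  (hP : IsPower J K.R S P Q) (hi' : IsClosedEmbedding i X T P Q)

include hi' in
omit hZF in
theorem emb_open (hZF : Fact (IsModelOfZF M)) {W : M} (hW : W ∈ Q) : sep X (fun x => ap i x ∈ W) ∈ T := by
  refine (hi'.2.2.1 _).mpr ⟨W, hW, fun x => ?_⟩
  rw [mem_sep]
  refine and_congr_right fun hx => ?_
  constructor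
  · intro h
    exact ⟨_, h, hi'.1.mem hx⟩
  · rintro ⟨z, hz, hxz⟩
    obtain ⟨_, rfl⟩ := hi'.1.app.mp hxz
    exact hz

include hi' in
theorem open_emb {U : M} (hU : U ∈ T) : ∃ W, W ∈ Q ∧ ∀ x, x ∈ X → (x ∈ U ↔ ap i x ∈ W) := by
  obtain ⟨W, hW, h⟩ := (hi'.2.2.1 U).mp hU
  refine ⟨W, hW, fun x hx => (h x).trans ?_⟩
  constructor
  · rintro ⟨_, z, hz, hxz⟩
    obtain ⟨_, rfl⟩ := hi'.1.app.mp hxz
    exact hz
  · intro h
    exact ⟨hx, _, h, hi'.1.mem hx⟩

include hP hi' in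
theorem co_val {j x : M} (hj : j ∈ J) (hx : x ∈ X) : (co K i j x).1 = ap (ap i x) j := by
  have h1 : IsFun (ap i x) J K.R := (hP.1 _).mp (hi'.1.ap_mem hx)
  exact val_toF (h1.ap_mem hj)

include hT hS hP hi' in
theorem co_cts {j : M} (hj : j ∈ J) : Cts X T (co K i j) := by
  intro x hx ε hε
  have h1 := emb_open hi' hZF (cyl_mem hP hj (lo_mem hS (co K i j x + ε)))
  have h2 := emb_open hi' hZF (cyl_mem hP hj (hi_mem hS (co K i j x - ε)))
  have hm : ∀ y, y ∈ X → ap i y ∈ P ∧ ap (ap i y) j ∈ K.R := by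
    intro y hy
    have h3 := hi'.1.ap_mem hy
    exact ⟨h3, ((hP.1 _).mp h3).ap_mem hj⟩
  refine ⟨_, hT.inter h1 h2, ?_, ?_⟩
  · obtain ⟨h3, h4⟩ := hm x hx
    refine mem_inter.mpr ⟨mem_sep.mpr ⟨hx, mem_cyl.mpr ⟨h3, mem_lo.mpr ⟨h4, ?_⟩⟩⟩,
      mem_sep.mpr ⟨hx, mem_cyl.mpr ⟨h3, mem_hi.mpr ⟨h4, ?_⟩⟩⟩⟩
    · change co K i j x < _
      linarith
    · change _ < co K i j x
      linarith
  · intro y hy
    obtain ⟨h5, h6⟩ := mem_inter.mp hy
    have h7 : co K i j y < co K i j x + ε := (mem_lo.mp (mem_cyl.mp (mem_sep.mp h5).2).2).2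
    have h8 : co K i j x - ε < co K i j y := (mem_hi.mp (mem_cyl.mp (mem_sep.mp h6).2).2).2
    rw [abs_lt]
    constructor <;> linarith

include hT hS hZ hP hi' in
/-- clopen sets form a base -/
theorem base {x W : M} (hx : x ∈ X) (hW : W ∈ Q) (hxW : ap i x ∈ W) :
    ∃ C, Clo X T C ∧ x ∈ C ∧ ∀ y, y ∈ C → ap i y ∈ W := by
  have hm : ∀ y, y ∈ X → ap i y ∈ P := fun y hy => hi'.1.ap_mem hy
  have hm' : ∀ y j, y ∈ X → j ∈ J → ap (ap i y) j ∈ K.R := fun y j hy hj =>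
    ((hP.1 _).mp (hm y hy)).ap_mem hj
  refine real_nbhd hP hS (ap i x) (fun W => ∃ C, Clo X T C ∧ x ∈ C ∧ ∀ y, y ∈ C → ap i y ∈ W)
    ?_ ?_ ?_ ?_ ?_ W hW hxW
  · exact ⟨X, Clo.univ hT, hx, hm⟩
  · rintro U V ⟨C, h1, h2, h3⟩ ⟨C', h1', h2', h3'⟩
    refine ⟨_, h1.inter hT h1', mem_inter.mpr ⟨h2, h2'⟩, fun y hy => ?_⟩
    obtain ⟨h4, h5⟩ := mem_inter.mp hy
    exact mem_inter.mpr ⟨h3 y h4, h3' y h5⟩
  · rintro U V ⟨C, h1, h2, h3⟩ hUV _
    exact ⟨C, h1, h2, fun y hy => hUV _ (h3 y hy)⟩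
  · intro j hj a ha
    have hxa : co K i j x < a := (mem_lo.mp ha).2
    have hpos : 0 < (a - co K i j x)⁻¹ := inv_pos.mpr (by linarith)
    have hc := co_cts hT hS hP hi' hj
    have hs : Cts X T (fun y => (co K i j y - co K i j x) * (a - co K i j x)⁻¹) := by
      refine hc.lip hT _ hpos fun y z _ _ => ?_
      rw [← sub_mul, abs_mul, abs_of_pos hpos, mul_comm]
      apply le_of_eq
      congr 2
      ring
    obtain ⟨C, h1, h2, h3, h4⟩ := szd hT hS hZ hs
    have hC : Clo X T C := ⟨h1, h2⟩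
    refine ⟨C, hC, h3 x hx (by simp), fun y hy => ?_⟩
    have hyX := hC.sub hT hy
    refine mem_cyl.mpr ⟨hm y hyX, mem_lo.mpr ⟨hm' y j hyX hj, ?_⟩⟩
    by_contra hlt
    refine h4 y hyX ?_ hy
    have h5 : a - co K i j x ≤ co K i j y - co K i j x := by
      have := not_lt.mp hlt
      change a ≤ co K i j y at this
      linarith
    calc (1 : El K.R) = (a - co K i j x) * (a - co K i j x)⁻¹ :=
          (mul_inv_cancel₀ (by linarith)).symm
      _ ≤ _ := mul_le_mul_of_nonneg_right h5 hpos.le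
  · intro j hj a ha
    have hxa : a < co K i j x := (mem_hi.mp ha).2
    have hpos : 0 < (co K i j x - a)⁻¹ := inv_pos.mpr (by linarith)
    have hc := co_cts hT hS hP hi' hj
    have hs : Cts X T (fun y => (co K i j x - co K i j y) * (co K i j x - a)⁻¹) := by
      refine hc.lip hT _ hpos fun y z _ _ => ?_
      rw [← sub_mul, abs_mul, abs_of_pos hpos, mul_comm, abs_sub_comm]
      apply le_of_eq
      congr 2
      ring
    obtain ⟨C, h1, h2, h3, h4⟩ := szd hT hS hZ hs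
    have hC : Clo X T C := ⟨h1, h2⟩
    refine ⟨C, hC, h3 x hx (by simp), fun y hy => ?_⟩
    have hyX := hC.sub hT hy
    refine mem_cyl.mpr ⟨hm y hyX, mem_hi.mpr ⟨hm' y j hyX hj, ?_⟩⟩
    by_contra hlt
    refine h4 y hyX ?_ hy
    have h5 : co K i j x - a ≤ co K i j x - co K i j y := by
      have := not_lt.mp hlt
      change co K i j y ≤ a at this
      linarith
    calc (1 : El K.R) = (co K i j x - a) * (co K i j x - a)⁻¹ :=
          (mul_inv_cancel₀ (by linarith)).symm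
      _ ≤ _ := mul_le_mul_of_nonneg_right h5 hpos.le

include hT hS hZ hP hi' in
theorem separate {x y : M} (hx : x ∈ X) (hy : y ∈ X) (hxy : x ≠ y) :
    ∃ C, Clo X T C ∧ x ∈ C ∧ y ∉ C := by
  have hfx := (hP.1 _).mp (hi'.1.ap_mem hx)
  have hfy := (hP.1 _).mp (hi'.1.ap_mem hy)
  have hne : ap i x ≠ ap i y := by
    intro h
    exact hxy (hi'.2.1 x y _ (hi'.1.mem hx) (h ▸ hi'.1.mem hy))
  obtain ⟨j, hj, hjne⟩ : ∃ j, j ∈ J ∧ ap (ap i x) j ≠ ap (ap i y) j := by
    by_contra hcon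
    push Not at hcon
    exact hne (hfx.ext hfy hcon)
  have hne' : co K i j x ≠ co K i j y := by
    intro h
    rw [← co_val hP hi' hj hx, ← co_val hP hi' hj hy, h] at hjne
    exact hjne rfl
  rcases lt_or_gt_of_ne hne' with h | h
  · obtain ⟨C, h1, h2, h3⟩ := base hT hS hZ hP hi' hx (cyl_mem hP hj (lo_mem hS (co K i j y)))
      (mem_cyl.mpr ⟨hi'.1.ap_mem hx, mem_lo.mpr ⟨hfx.ap_mem hj, h⟩⟩)
    refine ⟨C, h1, h2, fun hyC => ?_⟩
    have := (mem_lo.mp (mem_cyl.mp (h3 y hyC)).2).2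
    exact lt_irrefl _ this
  · obtain ⟨C, h1, h2, h3⟩ := base hT hS hZ hP hi' hx (cyl_mem hP hj (hi_mem hS (co K i j y)))
      (mem_cyl.mpr ⟨hi'.1.ap_mem hx, mem_hi.mpr ⟨hfx.ap_mem hj, h⟩⟩)
    refine ⟨C, h1, h2, fun hyC => ?_⟩
    have := (mem_hi.mp (mem_cyl.mp (h3 y hyC)).2).2
    exact lt_irrefl _ this

/-- the canonical map into the power of the natural numbers -/
noncomputable def ev (X T : M) : M := lam X (fun x => lam (contN X T) (fun h => ap h x))

theorem ev_val (T : M) {x : M} (hx : x ∈ X) : IsFun (lam (contN X T) (fun h => ap h x))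
    (contN X T) (omega M) := isFun_lam fun _ hh => (mem_contN.mp hh).1.ap_mem hx

theorem isFun_ev (T : M) : IsFun (ev X T) X (funs (contN X T) (omega M)) :=
  isFun_lam fun _ hx => mem_funs.mpr (ev_val T hx)

theorem ap_ev {x : M} (hx : x ∈ X) : ap (ev X T) x = lam (contN X T) (fun h => ap h x) :=
  ap_lam (b := funs (contN X T) (omega M)) (fun _ hx => mem_funs.mpr (ev_val T hx)) hx

theorem ap_ap_ev {x h : M} (hx : x ∈ X) (hh : h ∈ contN X T) : ap (ap (ev X T) x) h = ap h x := by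
  rw [ap_ev hx]
  exact ap_lam (b := omega M) (fun _ hh => (mem_contN.mp hh).1.ap_mem hx) hh

include hT hS hZ hP hi' in
theorem closed {p : M} (hpf : IsFun p (contN X T) (omega M)) (hp : Real3 X T p) :
    ∃ x, x ∈ X ∧ ap (ev X T) x = p := by
  have hm : ∀ y, y ∈ X → ap i y ∈ P := fun y hy => hi'.1.ap_mem hy
  have hm' : ∀ y j, y ∈ X → j ∈ J → ap (ap i y) j ∈ K.R := fun y j hy hj =>
    ((hP.1 _).mp (hm y hy)).ap_mem hj
  -- the limit point in the power of the reals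
  have hlim : ∀ j, j ∈ J → ∃ l : El K.R, ∀ ε, 0 < ε →
      ∃ C, Uf X T p C ∧ ∀ x, x ∈ C → |co K i j x - l| < ε := fun j hj =>
    limit_exists hT hS hZ hp hpf (co_cts hT hS hP hi' hj)
  let L : M → M := fun j => iota (fun l => l ∈ K.R ∧ ∀ ε : El K.R, 0 < ε →
      ∃ C, Uf X T p C ∧ ∀ x, x ∈ C → |co K i j x - toF K l| < ε)
  have hDL : DT (fun v => L (v 0)) := by
    change DT (fun v : ℕ → M => iota (fun l => l ∈ K.R ∧ ∀ ε : El K.R, 0 < ε →
      ∃ C, Uf X T p C ∧ ∀ x, x ∈ C → |co K i (v 0) x - toF K l| < ε))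
    infer_instance
  have hL : ∀ j, j ∈ J → L j ∈ K.R ∧ ∀ ε : El K.R, 0 < ε →
      ∃ C, Uf X T p C ∧ ∀ x, x ∈ C → |co K i j x - toF K (L j)| < ε := by
    intro j hj
    refine iota_spec (P := fun l => l ∈ K.R ∧ ∀ ε : El K.R, 0 < ε →
      ∃ C, Uf X T p C ∧ ∀ x, x ∈ C → |co K i j x - toF K l| < ε) ?_
    obtain ⟨l, hl⟩ := hlim j hj
    refine ⟨l.1, ⟨l.2, by rwa [toF_val]⟩, ?_⟩
    rintro l' ⟨hl', h⟩
    have := limit_unique hT hp h hl
    rw [← val_toF hl', this]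
  have hLm : ∀ j, j ∈ J → L j ∈ K.R := fun j hj => (hL j hj).1
  have hq : IsFun (lam J L) J K.R := isFun_lam hLm
  have hqP : lam J L ∈ P := (hP.1 _).mpr hq
  have hne : ∀ {C}, Uf X T p C → ∃ x, x ∈ X ∧ x ∈ C := fun h => h.nonempty hT hp
  -- neighbourhoods of the limit point
  have hnb : ∀ W, W ∈ Q → lam J L ∈ W → ∃ C, Uf X T p C ∧ ∀ x, x ∈ C → ap i x ∈ W := by
    refine real_nbhd hP hS (lam J L) (fun W => ∃ C, Uf X T p C ∧ ∀ x, x ∈ C → ap i x ∈ W)
      ?_ ?_ ?_ ?_ ?_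
    · exact ⟨X, uf_univ hT hp, hm⟩
    · rintro U V ⟨C, h1, h2⟩ ⟨C', h1', h2'⟩
      refine ⟨_, h1.inter hT hp h1', fun y hy => ?_⟩
      obtain ⟨h4, h5⟩ := mem_inter.mp hy
      exact mem_inter.mpr ⟨h2 y h4, h2' y h5⟩
    · rintro U V ⟨C, h1, h2⟩ hUV _
      exact ⟨C, h1, fun y hy => hUV _ (h2 y hy)⟩
    · intro j hj a ha
      rw [ap_lam hLm hj] at ha
      have h1 := (mem_lo.mp ha).2
      obtain ⟨C, hC, h2⟩ := (hL j hj).2 (a - toF K (L j)) (by linarith)
      refine ⟨C, hC, fun x hx => ?_⟩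
      have hxX := hC.1.sub hT hx
      refine mem_cyl.mpr ⟨hm x hxX, mem_lo.mpr ⟨hm' x j hxX hj, ?_⟩⟩
      change co K i j x < a
      have := (abs_lt.mp (h2 x hx)).2
      linarith
    · intro j hj a ha
      rw [ap_lam hLm hj] at ha
      have h1 := (mem_hi.mp ha).2
      obtain ⟨C, hC, h2⟩ := (hL j hj).2 (toF K (L j) - a) (by linarith)
      refine ⟨C, hC, fun x hx => ?_⟩
      have hxX := hC.1.sub hT hx
      refine mem_cyl.mpr ⟨hm x hxX, mem_hi.mpr ⟨hm' x j hxX hj, ?_⟩⟩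
      change a < co K i j x
      have := (abs_lt.mp (h2 x hx)).1
      linarith
  -- it lies in the range of `i`
  obtain ⟨x₀, hx₀⟩ : ∃ x, App i x (lam J L) := by
    by_contra hcon
    push Not at hcon
    obtain ⟨O, hO, h1⟩ := hi'.2.2.2
    obtain ⟨C, hC, h2⟩ := hnb O hO ((h1 _).mpr ⟨hqP, hcon⟩)
    obtain ⟨x, hx, hxC⟩ := hne hC
    exact ((h1 _).mp (h2 x hxC)).2 x (hi'.1.mem hx)
  obtain ⟨hx₀X, hx₀e⟩ := hi'.1.app.mp hx₀
  refine ⟨x₀, hx₀X, ?_⟩
  rw [ap_ev hx₀X]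
  refine (ev_val T hx₀X).ext hpf fun h hh => ?_
  rw [ap_lam (b := omega M) (fun _ hh => (mem_contN.mp hh).1.ap_mem hx₀X) hh]
  by_contra hcon
  have hfib := uf_fib hT hp hpf hh
  have hx1 : x₀ ∈ diff X (fib X h (ap p h)) := by
    refine mem_diff.mpr ⟨hx₀X, fun h1 => hcon ?_⟩
    exact (mem_fib.mp h1).2
  obtain ⟨W, hW, h1⟩ := open_emb hi' hfib.1.2
  obtain ⟨C, hC, h2⟩ := hnb W hW (by rw [hx₀e]; exact (h1 x₀ hx₀X).mp hx1)
  obtain ⟨x, hx, hxC⟩ := hne (hC.inter hT hp hfib)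
  obtain ⟨h3, h4⟩ := mem_inter.mp hxC
  exact (mem_diff.mp ((h1 x hx).mpr (h2 x h3))).2 h4

include hT hS hZ hP hi' in
theorem closedEmbedding_ev : IsClosedEmbedding (ev X T) X T (funs (contN X T) (omega M))
    (powQ (contN X T) (omega M) (pow (omega M))) := by
  have hP' : IsPower (contN X T) (omega M) (pow (omega M)) (funs (contN X T) (omega M))
    (powQ (contN X T) (omega M) (pow (omega M))) := isPower_powQ
  have hcyl : ∀ {h n}, h ∈ contN X T → n ∈ omega M →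
      cyl (funs (contN X T) (omega M)) h (upair n n) ∈
        powQ (contN X T) (omega M) (pow (omega M)) := by
    intro h n hh hn
    refine cyl_mem hP' hh (mem_pow.mpr fun x hx => ?_)
    rcases mem_upair.mp hx with rfl | rfl <;> exact hn
  have hmc : ∀ {h n g}, g ∈ cyl (funs (contN X T) (omega M)) h (upair n n) ↔
      g ∈ funs (contN X T) (omega M) ∧ ap g h = n := by
    intro h n g
    rw [mem_cyl, mem_upair, or_self]
  have hev := isFun_ev (X := X) T
  refine ⟨hev, ?_, ?_, ?_⟩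
  · intro x y z hx hy
    obtain ⟨hxX, rfl⟩ := hev.app.mp hx
    obtain ⟨hyX, h1⟩ := hev.app.mp hy
    by_contra hne
    obtain ⟨C, hC, hxC, hyC⟩ := separate hT hS hZ hP hi' hxX hyX hne
    have h2 := chi_mem hT hC
    have h3 : ap (ap (ev X T) x) (chi X C) = ap (ap (ev X T) y) (chi X C) := by rw [h1]
    rw [ap_ap_ev hxX h2, ap_ap_ev hyX h2, (ap_chi_iff hxX).mpr hxC] at h3
    exact hyC ((ap_chi_iff hyX).mp h3.symm)
  · intro U
    constructor
    · intro hU
      refine ⟨sep (funs (contN X T) (omega M)) (fun g => ∃ V,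
        V ∈ powQ (contN X T) (omega M) (pow (omega M)) ∧
        (∀ x, x ∈ X → ap (ev X T) x ∈ V → x ∈ U) ∧ g ∈ V), ?_, ?_⟩
      · refine hP'.2.1.of_nbhd fun g hg => ?_
        obtain ⟨hg1, V, hV, h1, hgV⟩ := mem_sep.mp hg
        refine ⟨V, hV, hgV, fun g' hg' => mem_sep.mpr ⟨hP'.2.1.1 V hV g' hg', V, hV, h1, hg'⟩⟩
      · intro x
        constructor
        · intro hx
          have hxX := hT.1 U hU x hx
          obtain ⟨W, hW, h1⟩ := open_emb hi' hU
          obtain ⟨C, hC, hxC, h2⟩ := base hT hS hZ hP hi' hxX hW ((h1 x hxX).mp hx)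
          have h3 := chi_mem hT hC
          refine ⟨hxX, ap (ev X T) x, mem_sep.mpr ⟨hev.ap_mem hxX, _,
            hcyl (n := suc emp) h3 (ind_omega.2 _ ind_omega.1), ?_, ?_⟩, hev.mem hxX⟩
          · intro y hy hyV
            have h4 := (hmc.mp hyV).2
            rw [ap_ap_ev hy h3, ap_chi_iff hy] at h4
            exact (h1 y hy).mpr (h2 y h4)
          · refine hmc.mpr ⟨hev.ap_mem hxX, ?_⟩
            rw [ap_ap_ev hxX h3, ap_chi_iff hxX]
            exact hxC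
        · rintro ⟨hxX, z, hz, hxz⟩
          obtain ⟨_, rfl⟩ := hev.app.mp hxz
          obtain ⟨_, V, hV, h1, h2⟩ := mem_sep.mp hz
          exact h1 x hxX h2
    · rintro ⟨W, hW, h1⟩
      refine hT.of_nbhd fun x hx => ?_
      obtain ⟨hxX, z, hz, hxz⟩ := (h1 x).mp hx
      obtain ⟨_, rfl⟩ := hev.app.mp hxz
      have key := disc_nbhd hP' (ap (ev X T) x) (hev.ap_mem hxX)
        (fun W => ∃ U', U' ∈ T ∧ x ∈ U' ∧ ∀ y, y ∈ U' → ap (ev X T) y ∈ W)
        ⟨X, hT.2.1, hxX, fun y hy => hev.ap_mem hy⟩ ?_ ?_ ?_ W hW hz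
      · obtain ⟨U', h2, h3, h4⟩ := key
        refine ⟨U', h2, h3, fun y hy => (h1 y).mpr ⟨hT.1 U' h2 y hy, _, h4 y hy, ?_⟩⟩
        exact hev.mem (hT.1 U' h2 y hy)
      · rintro U₁ U₂ ⟨V₁, h2, h3, h4⟩ ⟨V₂, h2', h3', h4'⟩
        refine ⟨_, hT.inter h2 h2', mem_inter.mpr ⟨h3, h3'⟩, fun y hy => ?_⟩
        obtain ⟨h5, h6⟩ := mem_inter.mp hy
        exact mem_inter.mpr ⟨h4 y h5, h4' y h6⟩
      · rintro U₁ U₂ ⟨V₁, h2, h3, h4⟩ h5 _
        exact ⟨V₁, h2, h3, fun y hy => h5 _ (h4 y hy)⟩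
      · intro h hh
        obtain ⟨h2, h3⟩ := mem_contN.mp hh
        refine ⟨_, h3 _ (h2.ap_mem hxX), mem_sep.mpr ⟨hxX, rfl⟩, fun y hy => ?_⟩
        obtain ⟨hyX, hy⟩ := mem_sep.mp hy
        refine mem_sep.mpr ⟨hev.ap_mem hyX, ?_⟩
        rw [ap_ap_ev hyX hh, ap_ap_ev hxX hh, hy]
  · refine ⟨sep (funs (contN X T) (omega M)) (fun z => ∀ x, ¬ App (ev X T) x z), ?_,
      fun z => mem_sep⟩
    refine hP'.2.1.of_nbhd fun p hp => ?_
    obtain ⟨hp1, hp2⟩ := mem_sep.mp hp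
    by_contra hcon
    have hstar : ∀ V, V ∈ powQ (contN X T) (omega M) (pow (omega M)) → p ∈ V →
        ∃ x, x ∈ X ∧ ap (ev X T) x ∈ V := by
      intro V hV hpV
      by_contra hno
      push Not at hno
      refine hcon ⟨V, hV, hpV, fun y hy => mem_sep.mpr ⟨hP'.2.1.1 V hV y hy, ?_⟩⟩
      intro x hxy
      obtain ⟨hxX, rfl⟩ := hev.app.mp hxy
      exact hno x hxX hy
    have hpf : IsFun p (contN X T) (omega M) := mem_funs.mp hp1
    have hp3 : Real3 X T p := by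
      intro h₁ h₂ h₃ hh₁ hh₂ hh₃
      have hV := hP'.2.1.inter (hP'.2.1.inter (hcyl hh₁ (hpf.ap_mem hh₁))
        (hcyl hh₂ (hpf.ap_mem hh₂))) (hcyl hh₃ (hpf.ap_mem hh₃))
      obtain ⟨x, hx, hxV⟩ := hstar _ hV (mem_inter.mpr ⟨mem_inter.mpr ⟨hmc.mpr ⟨hp1, rfl⟩,
        hmc.mpr ⟨hp1, rfl⟩⟩, hmc.mpr ⟨hp1, rfl⟩⟩)
      obtain ⟨hx12, hx3⟩ := mem_inter.mp hxV
      obtain ⟨hx1, hx2⟩ := mem_inter.mp hx12
      have e1 := (hmc.mp hx1).2
      have e2 := (hmc.mp hx2).2
      have e3 := (hmc.mp hx3).2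
      rw [ap_ap_ev hx hh₁] at e1
      rw [ap_ap_ev hx hh₂] at e2
      rw [ap_ap_ev hx hh₃] at e3
      exact ⟨x, hx, e1, e2, e3⟩
    obtain ⟨x, hx, hxp⟩ := closed hT hS hZ hP hi' hpf hp3
    exact hp2 x (hev.app.mpr ⟨hx, hxp.symm⟩)

end

theorem main {X T : M} (hT : IsTopology X T) (h : IsRealcompact K X T)
    (hZ : IsStronglyZeroDim K X T) : IsNCompact X T := by
  obtain ⟨S, J, P, Q, i, hS, hP, hi'⟩ := h
  exact ⟨omega M, pow (omega M), contN X T, _, _, ev X T, isOmega_omega, fun U => mem_pow,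
    isPower_powQ, closedEmbedding_ev hT hS hZ hP hi'⟩

end Pool.Agent.Lib.MP_f5c99b_lc
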